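import Mathlib
import Pool.Agent.LibMSB.Core

set_option autoImplicit false
set_option linter.unusedSectionVars false

namespace Pool.Agent.LibUS88

open Finset

variable {V : Type*}

/-- `φ` has the cycle `c` (indexed by `ZMod g`), and every vertex reaches it. -/
structure Cyc (φ : V → V) {g : ℕ} (c : ZMod g → V) : Prop where
  inj : Function.Injective c
  step : ∀ i, φ (c i) = c (i + 1)
  reach : ∀ x, ∃ n i, φ^[n] x = c i

/-- `x` is not on the cycle. -/
def Off {g : ℕ} (c : ZMod g → V) (x : V) : Prop := ∀ i, x ≠ c i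

/-- `x` reaches `y` through vertices off the cycle (`x = y` allowed). -/
def Des (φ : V → V) {g : ℕ} (c : ZMod g → V) (y x : V) : Prop :=
  ∃ n, φ^[n] x = y ∧ ∀ m < n, Off c (φ^[m] x)

variable [Fintype V] [DecidableEq V]

open Classical in
/-- The set of all `x` that reach `y` through vertices off the cycle. -/
noncomputable def des (φ : V → V) {g : ℕ} (c : ZMod g → V) (y : V) : Finset V :=
  univ.filter (fun x => Des φ c y x)

open Classical in
/-- The trees with top `y` inside `D`: sets containing `y`, closed under `φ` except at `y`. -/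
noncomputable def tr (φ : V → V) (D : Finset V) (y : V) : Finset (Finset V) :=
  D.powerset.filter (fun C => y ∈ C ∧ ∀ x ∈ C, x ≠ y → φ x ∈ C)

/-- The trees with top `y` whose other vertices are off the cycle. -/
noncomputable def loc (φ : V → V) {g : ℕ} (c : ZMod g → V) (y : V) : Finset (Finset V) :=
  tr φ (des φ c y) y

/-- Number of trees in `loc`. -/
noncomputable def wN (φ : V → V) {g : ℕ} (c : ZMod g → V) (y : V) : ℕ := (loc φ c y).card

/-- Total order of the trees in `loc`. -/
noncomputable def aN (φ : V → V) {g : ℕ} (c : ZMod g → V) (y : V) : ℕ :=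
  ∑ C ∈ loc φ c y, C.card

open Classical in
/-- Number of cycle vertices in `C`. -/
noncomputable def kk {g : ℕ} [NeZero g] (c : ZMod g → V) (C : Finset V) : ℕ :=
  (univ.filter (fun i : ZMod g => c i ∈ C)).card

/-- Number of vertices of `C` off the cycle that hang at `c i`. -/
noncomputable def rho (φ : V → V) {g : ℕ} (c : ZMod g → V) (i : ZMod g) (C : Finset V) : ℕ :=
  (C ∩ (des φ c (c i)).erase (c i)).card

theorem mem_des {φ : V → V} {g : ℕ} {c : ZMod g → V} {y x : V} :
    x ∈ des φ c y ↔ Des φ c y x := by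
  classical
  unfold des
  rw [mem_filter]
  simp

theorem mem_tr {φ : V → V} {D : Finset V} {y : V} {C : Finset V} :
    C ∈ tr φ D y ↔ C ⊆ D ∧ y ∈ C ∧ ∀ x ∈ C, x ≠ y → φ x ∈ C := by
  classical
  unfold tr
  rw [mem_filter, mem_powerset]

theorem des_self (φ : V → V) {g : ℕ} (c : ZMod g → V) (y : V) : y ∈ des φ c y := by
  rw [mem_des]
  exact ⟨0, rfl, by simp⟩

/-- A vertex of `des y` other than `y` is off the cycle, and its image is again in `des y`. -/
theorem des_step {φ : V → V} {g : ℕ} {c : ZMod g → V} {y x : V} (hx : x ∈ des φ c y)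
    (hne : x ≠ y) : Off c x ∧ φ x ∈ des φ c y := by
  rw [mem_des] at hx
  obtain ⟨n, hn, hoff⟩ := hx
  cases n with
  | zero => exact absurd hn hne
  | succ n =>
    refine ⟨hoff 0 (Nat.succ_pos n), ?_⟩
    rw [mem_des]
    refine ⟨n, ?_, ?_⟩
    · rw [← hn, Function.iterate_succ_apply]
    · intro m hm
      have := hoff (m + 1) (by omega)
      rwa [Function.iterate_succ_apply] at this

/-- A preimage off the cycle of a vertex of `des y` is in `des y`. -/
theorem des_pre {φ : V → V} {g : ℕ} {c : ZMod g → V} {y x : V} (hx : φ x ∈ des φ c y)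
    (hoff : Off c x) : x ∈ des φ c y := by
  rw [mem_des] at hx ⊢
  obtain ⟨n, hn, ho⟩ := hx
  refine ⟨n + 1, ?_, ?_⟩
  · rw [Function.iterate_succ_apply]; exact hn
  · intro m hm
    cases m with
    | zero => exact hoff
    | succ m =>
      rw [Function.iterate_succ_apply]
      exact ho m (by omega)

theorem single_loc (φ : V → V) {g : ℕ} (c : ZMod g → V) (y : V) : {y} ∈ loc φ c y := by
  unfold loc
  rw [mem_tr]
  refine ⟨by simpa using des_self φ c y, mem_singleton_self y, ?_⟩
  intro x hx hne
  exact absurd (mem_singleton.mp hx) hne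

theorem wN_pos (φ : V → V) {g : ℕ} (c : ZMod g → V) (y : V) : 0 < wN φ c y :=
  card_pos.mpr ⟨_, single_loc φ c y⟩

/-- A set closed under `φ` except at `t`, which contains a vertex of the hanging tree at `c i`,
contains `c i` if `t` is on the cycle. -/
theorem top_mem {φ : V → V} {g : ℕ} {c : ZMod g → V} {C : Finset V} {y x : V} (t : V)
    (hcl : ∀ z ∈ C, z ≠ t → φ z ∈ C) (ht : ∃ i, t = c i) (hx : x ∈ C) (hd : x ∈ des φ c y) :
    y ∈ C := by
  rw [mem_des] at hd
  obtain ⟨n, hn, ho⟩ := hd
  have key : ∀ m ≤ n, φ^[m] x ∈ C := by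
    intro m
    induction m with
    | zero => intro _; exact hx
    | succ m ih =>
      intro hm
      rw [Function.iterate_succ_apply']
      apply hcl _ (ih (by omega))
      intro he
      obtain ⟨i, hi⟩ := ht
      exact ho m (by omega) i (he.trans hi)
  rw [← hn]
  exact key n le_rfl

end Pool.Agent.LibUS88
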