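import Mathlib
import Pool.Agent.LibUS88.Defs

set_option autoImplicit false
set_option linter.unusedSectionVars false

namespace Pool.Agent.LibUS88

open Finset Pool.Agent.LibMST Pool.Agent.LibMSB

variable {V : Type*} [Fintype V] [DecidableEq V]

/-- The edges of the graph of `φ`. -/
def edg (φ : V → V) : Finset (Sym2 V) := univ.image (fun x => s(x, φ x))

/-- The tree with top `y` and vertex set `C`. -/
def mkT (φ : V → V) (y : V) (C : Finset V) : Finset V × Finset (Sym2 V) :=
  (C, (C.erase y).image (fun x => s(x, φ x)))

open Classical in
/-- The vertex sets of the trees with top `y`. -/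
noncomputable def trs (φ : V → V) {g : ℕ} (c : ZMod g → V) (y : V) : Finset (Finset V) :=
  if Off c y then tr φ (des φ c y) y else tr φ univ y

end Pool.Agent.LibUS88
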