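import Mathlib
import Pool.Agent.LibUS88.Defs2

set_option autoImplicit false
set_option linter.unusedSectionVars false

namespace Pool.Agent.LibUS88

open Finset Pool.Agent.LibMST Pool.Agent.LibMSB

variable {V : Type*} [Fintype V] [DecidableEq V] {φ : V → V} {g : ℕ} {c : ZMod g → V}

omit [Fintype V] [DecidableEq V] in
theorem iter_c (hc : Cyc φ c) (n : ℕ) (i : ZMod g) : φ^[n] (c i) = c (i + n) := by
  induction n with
  | zero => simp
  | succ n ih =>
    rw [Function.iterate_succ_apply', ih, hc.step]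
    congr 1
    push_cast
    ring

omit [Fintype V] [DecidableEq V] in
theorem no_per (hc : Cyc φ c) (m : ℕ) (hm : ¬ g ∣ m) (x : V) : φ^[m] x ≠ x := by
  intro h
  obtain ⟨n, i, hn⟩ := hc.reach x
  have h1 : φ^[n] (φ^[m] x) = c i := by rw [h, hn]
  rw [← Function.iterate_add_apply, Nat.add_comm, Function.iterate_add_apply, hn, iter_c hc] at h1
  have h2 := hc.inj h1
  have h3 : (m : ZMod g) = 0 := by simpa using h2
  exact hm ((ZMod.natCast_eq_zero_iff m g).mp h3)

omit [Fintype V] [DecidableEq V] in
theorem ne_self (hc : Cyc φ c) (hg : 3 ≤ g) (x : V) : φ x ≠ x := by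
  have h := no_per hc 1 (fun h => by have := Nat.le_of_dvd one_pos h; omega) x
  simpa using h

omit [Fintype V] [DecidableEq V] in
theorem ne_two (hc : Cyc φ c) (hg : 3 ≤ g) (x : V) : φ (φ x) ≠ x := by
  have h := no_per hc 2 (fun h => by have := Nat.le_of_dvd two_pos h; omega) x
  simpa using h

omit [Fintype V] [DecidableEq V] in
theorem edge_inj (hc : Cyc φ c) (hg : 3 ≤ g) : ∀ x x' : V, s(x, φ x) = s(x', φ x') → x = x' := by
  intro x x' h
  rw [Sym2.eq_iff] at h
  rcases h with h | h
  · exact h.1
  · exfalso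
    apply ne_two hc hg x
    rw [h.2, ← h.1]

/-- `φ x` is not below `x`. -/
theorem not_des (hc : Cyc φ c) {x : V} (hx : Off c x) : φ x ∉ des φ c x := by
  intro h
  rw [mem_des] at h
  obtain ⟨n, hn, ho⟩ := h
  have hper : Function.IsPeriodicPt φ (n + 1) x := by
    unfold Function.IsPeriodicPt Function.IsFixedPt
    rw [Function.iterate_succ_apply]
    exact hn
  obtain ⟨m, i, hm⟩ := hc.reach x
  have h1 := hper.iterate_mod_apply m
  rw [hm] at h1
  have h2 : m % (n + 1) < n + 1 := Nat.mod_lt _ (Nat.succ_pos n)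
  rcases hr : m % (n + 1) with _ | r
  · rw [hr] at h1
    exact hx i h1
  · rw [hr] at h1 h2
    rw [Function.iterate_succ_apply] at h1
    exact ho r (by omega) i h1

theorem loc_des {y : V} {C : Finset V} (hC : C ∈ loc φ c y) : C ⊆ des φ c y :=
  (mem_tr.mp hC).1

theorem wN_le_aN (y : V) : wN φ c y ≤ aN φ c y := by
  unfold wN aN
  rw [Finset.card_eq_sum_ones]
  apply Finset.sum_le_sum
  intro C hC
  exact card_pos.mpr ⟨y, (mem_tr.mp hC).2.1⟩

/-- Jamison's inequality along a chain. -/
theorem jam
    (step : ∀ x, Off c x → aN φ c x * wN φ c (φ x) ≤ aN φ c (φ x) * wN φ c x) {x y : V}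
    (hx : x ∈ des φ c y) : aN φ c x * wN φ c y ≤ aN φ c y * wN φ c x := by
  rw [mem_des] at hx
  obtain ⟨n, hn, ho⟩ := hx
  induction n generalizing x with
  | zero =>
    have : x = y := hn
    rw [this]
  | succ n ih =>
    have h1 : aN φ c (φ x) * wN φ c y ≤ aN φ c y * wN φ c (φ x) := by
      apply ih
      · rw [← hn, Function.iterate_succ_apply]
      · intro m hm
        have := ho (m + 1) (by omega)
        rwa [Function.iterate_succ_apply] at this
    have h2 := step x (ho 0 (Nat.succ_pos n))
    have h3 := wN_pos φ c (φ x)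
    have h4 : wN φ c (φ x) * (aN φ c x * wN φ c y) ≤ wN φ c (φ x) * (aN φ c y * wN φ c x) := by
      calc wN φ c (φ x) * (aN φ c x * wN φ c y)
          = (aN φ c x * wN φ c (φ x)) * wN φ c y := by ring
        _ ≤ (aN φ c (φ x) * wN φ c x) * wN φ c y := Nat.mul_le_mul_right _ h2
        _ = (aN φ c (φ x) * wN φ c y) * wN φ c x := by ring
        _ ≤ (aN φ c y * wN φ c (φ x)) * wN φ c x := Nat.mul_le_mul_right _ h1
        _ = wN φ c (φ x) * (aN φ c y * wN φ c x) := by ring
    exact Nat.le_of_mul_le_mul_left h4 h3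

/-- A set closed under `φ` except at `y`, all of whose vertices reach `y`, is a tree. -/
private theorem grow_mk (y : V) : ∀ (n : ℕ) (C : Finset V), C.card = n → y ∈ C →
    (∀ x ∈ C, x ≠ y → φ x ∈ C) → (∀ x ∈ C, ∃ m, φ^[m] x = y) →
    Grow y C ((C.erase y).image (fun x => s(x, φ x))) := by
  classical
  intro n
  induction n with
  | zero =>
    intro C h0 hy
    rw [card_eq_zero] at h0
    rw [h0] at hy
    exact absurd hy (notMem_empty _)
  | succ n ih =>
    intro C hcard hy hcl hr
    by_cases hs : C = {y}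
    · subst hs
      have : (({y} : Finset V).erase y).image (fun x => s(x, φ x)) = ∅ := by simp
      rw [this]
      exact Grow.base
    · -- a deepest vertex
      have hne : (C.erase y).Nonempty := by
        rw [Finset.nonempty_iff_ne_empty]
        intro he
        apply hs
        rw [← insert_erase hy, he]
        rfl
      set dep : V → ℕ := fun x => if h : ∃ m, φ^[m] x = y then Nat.find h else 0 with hdep
      have hdepv : ∀ x ∈ C, φ^[dep x] x = y := by
        intro x hx
        have h := hr x hx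
        rw [hdep]
        simp only [h, dite_true]
        exact Nat.find_spec h
      have hdepm : ∀ x (m : ℕ), φ^[m] x = y → dep x ≤ m := by
        intro x m hm
        have h : ∃ m, φ^[m] x = y := ⟨m, hm⟩
        rw [hdep]
        simp only [h, dite_true]
        exact Nat.find_min' h hm
      obtain ⟨x, hx, hmax⟩ := exists_max_image (C.erase y) dep hne
      rw [mem_erase] at hx
      have hnox : ∀ z ∈ C, z ≠ y → φ z ≠ x := by
        intro z hz hzy he
        have h1 := hmax z (mem_erase.mpr ⟨hzy, hz⟩)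
        have h2 := hdepv z hz
        rcases hd : dep z with _ | d
        · rw [hd] at h2
          exact hzy h2
        · rw [hd, Function.iterate_succ_apply, he] at h2
          have := hdepm x d h2
          omega
      have hfx : φ x ∈ C.erase x := mem_erase.mpr ⟨hnox x hx.2 hx.1, hcl x hx.2 hx.1⟩
      have hG := ih (C.erase x) (by rw [card_erase_of_mem hx.2, hcard]; rfl)
        (mem_erase.mpr ⟨hx.1.symm, hy⟩)
        (by
          intro z hz hzy
          rw [mem_erase] at hz ⊢
          exact ⟨hnox z hz.2 hzy, hcl z hz.2 hzy⟩)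
        (fun z hz => hr z (mem_of_mem_erase hz))
      have hG2 := hG.step hfx (notMem_erase x C)
      rw [insert_erase hx.2] at hG2
      have he : insert s(φ x, x) (((C.erase x).erase y).image (fun x => s(x, φ x))) =
          (C.erase y).image (fun x => s(x, φ x)) := by
        rw [Sym2.eq_swap]
        have : C.erase y = insert x ((C.erase x).erase y) := by
          rw [erase_right_comm, insert_erase (mem_erase.mpr hx)]
        rw [this, image_insert]
      rw [he] at hG2
      exact hG2

theorem mem_trs_data (hc : Cyc φ c) {y : V} {C : Finset V} (hC : C ∈ trs φ c y) [NeZero g] :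
    y ∈ C ∧ (∀ x ∈ C, x ≠ y → φ x ∈ C) ∧ (∀ x ∈ C, ∃ m, φ^[m] x = y) := by
  classical
  unfold trs at hC
  split_ifs at hC with h
  · rw [mem_tr] at hC
    refine ⟨hC.2.1, hC.2.2, ?_⟩
    intro x hx
    have := hC.1 hx
    rw [mem_des] at this
    obtain ⟨n, hn, _⟩ := this
    exact ⟨n, hn⟩
  · rw [mem_tr] at hC
    refine ⟨hC.2.1, hC.2.2, ?_⟩
    intro x _
    unfold Off at h
    push Not at h
    obtain ⟨i, rfl⟩ := h
    obtain ⟨n, j, hn⟩ := hc.reach x
    refine ⟨(i - j).val + n, ?_⟩
    rw [Function.iterate_add_apply, hn, iter_c hc]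
    congr 1
    rw [ZMod.natCast_val, ZMod.cast_id', id]
    ring

theorem mkT_mem (hc : Cyc φ c) [NeZero g] {y : V} {C : Finset V} (hC : C ∈ trs φ c y) :
    mkT φ y C ∈ TP (edg φ) := by
  obtain ⟨h1, h2, h3⟩ := mem_trs_data hc hC
  rw [mem_TP]
  refine ⟨?_, y, grow_mk y _ C rfl h1 h2 h3⟩
  unfold mkT edg
  exact image_subset_image (subset_univ _)

theorem mkT_inj (hc : Cyc φ c) [NeZero g] (hg : 3 ≤ g) {y y' : V} {C C' : Finset V}
    (hC : C ∈ trs φ c y) (hC' : C' ∈ trs φ c y') (h : mkT φ y C = mkT φ y' C') :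
    y = y' ∧ C = C' := by
  unfold mkT at h
  rw [Prod.mk.injEq] at h
  obtain ⟨h1, h2⟩ := h
  subst h1
  have hi : Function.Injective (fun x : V => s(x, φ x)) := fun a b hab => edge_inj hc hg a b hab
  have h3 := image_injective hi h2
  refine ⟨?_, rfl⟩
  by_contra hne
  have h4 : y ∈ C.erase y' := mem_erase.mpr ⟨hne, (mem_trs_data hc hC).1⟩
  rw [← h3] at h4
  exact notMem_erase y C h4

theorem mem_mkT (hc : Cyc φ c) (hg : 3 ≤ g) (y x : V) (C : Finset V) :
    s(x, φ x) ∈ (mkT φ y C).2 ↔ x ≠ y ∧ x ∈ C := by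
  unfold mkT
  simp only [mem_image, mem_erase]
  constructor
  · rintro ⟨z, hz, he⟩
    have := edge_inj hc hg _ _ he
    rw [this] at hz
    exact hz
  · intro h
    exact ⟨x, h, rfl⟩

end Pool.Agent.LibUS88
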