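import Mathlib
import Pool.Agent.LibUS88.Defs2

set_option autoImplicit false
set_option linter.unusedSectionVars false

namespace Pool.Agent.LibUS88

open Finset Pool.Agent.LibMST Pool.Agent.LibMSB

variable {V : Type*} [Fintype V] [DecidableEq V] {φ : V → V} {g : ℕ} {c : ZMod g → V}

private theorem G2_grow {φ : V → V} {r : V} {C : Finset V} {B : Finset (Sym2 V)} (h : Grow r C B) :
    B ⊆ edg φ → ∃ y ∈ C, (C.erase y).image (fun x => s(x, φ x)) = B ∧
      (∀ x ∈ C, x ≠ y → φ x ∈ C) ∧ ∀ x ∈ C, ∃ n, φ^[n] x = y := by
  induction h with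
  | base =>
    intro _
    refine ⟨r, mem_singleton_self r, ?_, ?_, ?_⟩
    · rw [Finset.erase_singleton, Finset.image_empty]
    · intro x hx hne
      exact absurd (mem_singleton.mp hx) hne
    · intro x hx
      exact ⟨0, mem_singleton.mp hx⟩
  | @step C B x w h hx hw ih =>
    intro hB
    obtain ⟨y, hy, hBe, hcl, hr⟩ := ih ((Finset.subset_insert _ _).trans hB)
    have he : s(x, w) ∈ edg φ := hB (mem_insert_self _ _)
    unfold edg at he
    rw [Finset.mem_image] at he
    obtain ⟨z, -, hz⟩ := he
    rw [Sym2.eq_iff] at hz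
    rcases hz with ⟨hz1, hz2⟩ | ⟨hz1, hz2⟩
    · -- the old top was `x`
      subst hz1
      have hzy : z = y := by
        by_contra hne
        apply hw
        rw [← hz2]
        exact hcl z hx hne
      subst hzy
      refine ⟨w, mem_insert_self _ _, ?_, ?_, ?_⟩
      · rw [Finset.erase_insert hw, ← hBe, ← Finset.insert_erase hx, Finset.image_insert, hz2,
          Finset.insert_erase hx]
      · intro a ha hne
        rw [mem_insert] at ha
        rcases ha with ha | ha
        · exact absurd ha hne
        · by_cases haz : a = z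
          · rw [haz, hz2]
            exact mem_insert_self _ _
          · exact mem_insert_of_mem (hcl a ha haz)
      · intro a ha
        rw [mem_insert] at ha
        rcases ha with ha | ha
        · exact ⟨0, ha⟩
        · obtain ⟨n, hn⟩ := hr a ha
          exact ⟨n + 1, by rw [Function.iterate_succ_apply', hn, hz2]⟩
    · -- the new vertex points to `x`
      subst hz1
      have hzy : y ≠ z := by
        rintro rfl
        exact hw hy
      refine ⟨y, mem_insert_of_mem hy, ?_, ?_, ?_⟩
      · have hw' : z ∉ C.erase y := fun h' => hw (mem_of_mem_erase h')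
        rw [Finset.erase_insert_of_ne hzy.symm, Finset.image_insert, hBe, hz2, Sym2.eq_swap]
      · intro a ha hne
        rw [mem_insert] at ha
        rcases ha with ha | ha
        · rw [ha, hz2]
          exact mem_insert_of_mem hx
        · exact mem_insert_of_mem (hcl a ha hne)
      · intro a ha
        rw [mem_insert] at ha
        rcases ha with ha | ha
        · obtain ⟨n, hn⟩ := hr x hx
          exact ⟨n + 1, by rw [Function.iterate_succ_apply, ha, hz2, hn]⟩
        · exact hr a ha

private theorem G2_cyc {φ : V → V} {g : ℕ} {c : ZMod g → V} (hc : Cyc φ c) (n : ℕ) (i : ZMod g) :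
    φ^[n] (c i) = c (i + n) := by
  induction n with
  | zero => simp
  | succ n ih =>
    rw [Function.iterate_succ_apply', ih, hc.step]
    congr 1
    push_cast
    ring

/-- Every tree (pair of a vertex set and an edge set, see `mem_TP` and the inductive
predicate `Grow` in LibMST/Theory.lean) of the graph of `φ` has a top.
Plan. By induction on `Grow r C B` with `B ⊆ edg φ`: there is `y ∈ C` with
`B = (C.erase y).image (fun x => s(x, φ x))`, `∀ x ∈ C, x ≠ y → φ x ∈ C`, and
`∀ x ∈ C, ∃ n, φ^[n] x = y`. Step with new vertex `w ∉ C`, `x ∈ C`, `s(x, w) = s(z, φ z)`: if `z = w`,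
`φ w = x`, keep the top; if `z = x`, `φ x = w`, then `x` must be the old top (else `φ x ∈ C`) and the
new top is `w`. At the end: if `y` is on the cycle, `trs y = tr φ univ y` and nothing is left; if
`y` is off the cycle, every `x ∈ C` is in `des y`: `φ^[n] x = y` and all `φ^[m] x`, `m < n`, are off the
cycle (the cycle is closed under `φ`, `hc.step`). -/
theorem mkT_surj (hc : Cyc φ c) (hg : 3 ≤ g)
    (hinj : ∀ x x' : V, s(x, φ x) = s(x', φ x') → x = x') {T : Finset V × Finset (Sym2 V)}
    (hT : T ∈ TP (edg φ)) : ∃ y C, C ∈ trs φ c y ∧ mkT φ y C = T := by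
  obtain ⟨C, B⟩ := T
  rw [mem_TP] at hT
  obtain ⟨hB, r, hg'⟩ := hT
  obtain ⟨y, hy, hBe, hcl, hr⟩ := G2_grow hg' hB
  refine ⟨y, C, ?_, ?_⟩
  · unfold trs
    split_ifs with hoff
    · rw [mem_tr]
      refine ⟨?_, hy, hcl⟩
      intro x hx
      rw [mem_des]
      obtain ⟨n, hn⟩ := hr x hx
      refine ⟨n, hn, ?_⟩
      intro m hm i hi
      apply hoff (i + ((n - m : ℕ) : ZMod g))
      rw [← hn, ← G2_cyc hc, ← hi, ← Function.iterate_add_apply]
      congr 2
      omega
    · rw [mem_tr]
      exact ⟨subset_univ _, hy, hcl⟩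
  · unfold mkT
    rw [hBe]

end Pool.Agent.LibUS88
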