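import Mathlib
import Pool.Agent.LibUS88.Defs2

set_option autoImplicit false
set_option linter.unusedSectionVars false

namespace Pool.Agent.LibUS88

open Finset Pool.Agent.LibMST Pool.Agent.LibMSB

variable {V : Type*} [Fintype V] [DecidableEq V] {φ : V → V} {g : ℕ} {c : ZMod g → V}

private theorem J1_sub {x : V} (hx : Off c x) : des φ c x ⊆ des φ c (φ x) := by
  intro z hz
  rw [mem_des] at hz ⊢
  obtain ⟨n, hn, ho⟩ := hz
  refine ⟨n + 1, ?_, ?_⟩
  · rw [Function.iterate_succ_apply', hn]
  · intro m hm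
    rcases Nat.lt_succ_iff_lt_or_eq.mp hm with h | h
    · exact ho m h
    · rw [h, hn]
      exact hx

/-- A set closed except at `y` that meets `des x` contains `x` if `y` is not in `des x`. -/
private theorem J1_meet {x y : V} (hn : y ∉ des φ c x) {C : Finset V}
    (hcl : ∀ z ∈ C, z ≠ y → φ z ∈ C) {z : V} (hz : z ∈ C) (hzx : z ∈ des φ c x) : x ∈ C := by
  rw [mem_des] at hzx
  obtain ⟨n, hnn, ho⟩ := hzx
  have key : ∀ m ≤ n, φ^[m] z ∈ C := by
    intro m
    induction m with
    | zero => intro _; exact hz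
    | succ m ih =>
      intro hm
      rw [Function.iterate_succ_apply']
      apply hcl _ (ih (by omega))
      intro he
      apply hn
      rw [← he, mem_des]
      refine ⟨n - m, ?_, ?_⟩
      · rw [← Function.iterate_add_apply, Nat.sub_add_cancel (by omega)]
        exact hnn
      · intro k hk
        rw [← Function.iterate_add_apply]
        exact ho (k + m) (by omega)
  rw [← hnn]
  exact key n le_rfl

private theorem J1_fwd1 {x : V} (hn : φ x ∉ des φ c x) {C : Finset V}
    (hC : C ∈ loc φ c (φ x)) (hxC : x ∈ C) : C ∩ des φ c x ∈ loc φ c x := by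
  unfold loc at hC ⊢
  rw [mem_tr] at hC ⊢
  obtain ⟨h1, h2, h3⟩ := hC
  refine ⟨inter_subset_right, mem_inter.mpr ⟨hxC, des_self φ c x⟩, ?_⟩
  intro z hz hne
  rw [mem_inter] at hz ⊢
  refine ⟨h3 z hz.1 ?_, (des_step hz.2 hne).2⟩
  intro he
  exact hn (he ▸ hz.2)

private theorem J1_fwd2 {x : V} (hn : φ x ∉ des φ c x) {C : Finset V}
    (hC : C ∈ loc φ c (φ x)) : C \ des φ c x ∈ (loc φ c (φ x)).filter (fun C => x ∉ C) := by
  rw [mem_filter]
  unfold loc at hC ⊢
  rw [mem_tr] at hC ⊢
  obtain ⟨h1, h2, h3⟩ := hC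
  refine ⟨⟨sdiff_subset.trans h1, mem_sdiff.mpr ⟨h2, hn⟩, ?_⟩, ?_⟩
  · intro z hz hne
    rw [mem_sdiff] at hz ⊢
    refine ⟨h3 z hz.1 hne, ?_⟩
    intro hd
    exact hz.2 (des_pre hd (des_step (h1 hz.1) hne).1)
  · intro h
    exact (mem_sdiff.mp h).2 (des_self φ c x)

private theorem J1_bwd {x : V} (hx : Off c x) {R C : Finset V}
    (hR : R ∈ loc φ c x) (hC : C ∈ (loc φ c (φ x)).filter (fun C => x ∉ C)) :
    R ∪ C ∈ (loc φ c (φ x)).filter (fun C => x ∈ C) := by
  rw [mem_filter] at hC ⊢
  unfold loc at hR hC ⊢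
  rw [mem_tr] at hR hC ⊢
  obtain ⟨r1, r2, r3⟩ := hR
  obtain ⟨⟨h1, h2, h3⟩, h4⟩ := hC
  refine ⟨⟨union_subset (r1.trans (J1_sub hx)) h1, mem_union_right _ h2, ?_⟩, mem_union_left _ r2⟩
  intro z hz hne
  rcases mem_union.mp hz with h | h
  · by_cases hzx : z = x
    · rw [hzx]
      exact mem_union_right _ h2
    · exact mem_union_left _ (r3 z h hzx)
  · exact mem_union_right _ (h3 z h hne)

private theorem J1_disj {x : V} (hn : φ x ∉ des φ c x) {C : Finset V}
    (hC : C ∈ (loc φ c (φ x)).filter (fun C => x ∉ C)) : Disjoint C (des φ c x) := by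
  rw [mem_filter] at hC
  obtain ⟨hC, hx⟩ := hC
  unfold loc at hC
  rw [mem_tr] at hC
  rw [disjoint_left]
  intro z hz hd
  exact hx (J1_meet hn hC.2.2 hz hd)

private theorem J1_inv1 {x : V} (hn : φ x ∉ des φ c x) {R C : Finset V}
    (hR : R ∈ loc φ c x) (hC : C ∈ (loc φ c (φ x)).filter (fun C => x ∉ C)) :
    (R ∪ C) ∩ des φ c x = R := by
  have hd := J1_disj hn hC
  have hs : R ⊆ des φ c x := by
    unfold loc at hR
    exact (mem_tr.mp hR).1
  rw [union_inter_distrib_right, inter_eq_left.mpr hs, disjoint_iff_inter_eq_empty.mp hd,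
    union_empty]

private theorem J1_inv2 {x : V} (hn : φ x ∉ des φ c x) {R C : Finset V}
    (hR : R ∈ loc φ c x) (hC : C ∈ (loc φ c (φ x)).filter (fun C => x ∉ C)) :
    (R ∪ C) \ des φ c x = C := by
  have hd := J1_disj hn hC
  have hs : R ⊆ des φ c x := by
    unfold loc at hR
    exact (mem_tr.mp hR).1
  rw [union_sdiff_distrib, sdiff_eq_empty_iff_subset.mpr hs, empty_union, hd.sdiff_eq_left]

private theorem J1_sum {x : V} (hx : Off c x) (hn : φ x ∉ des φ c x) (f : Finset V → ℕ) :
    ∑ C ∈ (loc φ c (φ x)).filter (fun C => x ∈ C), f C =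
      ∑ p ∈ (loc φ c x) ×ˢ ((loc φ c (φ x)).filter (fun C => x ∉ C)), f (p.1 ∪ p.2) := by
  apply Finset.sum_bij' (fun C _ => (C ∩ des φ c x, C \ des φ c x)) (fun p _ => p.1 ∪ p.2)
  · intro C hC
    rw [mem_filter] at hC
    exact mem_product.mpr ⟨J1_fwd1 hn hC.1 hC.2, J1_fwd2 hn hC.1⟩
  · intro p hp
    rw [mem_product] at hp
    exact J1_bwd hx hp.1 hp.2
  · intro C hC
    exact (union_comm _ _).trans (sdiff_union_inter C (des φ c x))
  · intro p hp
    rw [mem_product] at hp
    exact Prod.ext (J1_inv1 hn hp.1 hp.2) (J1_inv2 hn hp.1 hp.2)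
  · intro C hC
    change f C = f ((C ∩ des φ c x) ∪ (C \ des φ c x))
    rw [union_comm, sdiff_union_inter]

/-- One step of Jamison's inequality: for `x` off the cycle the mean order of the trees
with top `x` is at most the mean order of the trees of `loc (φ x)`.
Plan. `y = φ x`, `Q = (loc y).filter (x ∉ ·)`, `q = Q.card`. `x ∈ des y` (des_pre, des_self), so
`des x ⊆ des y`. The map `C ↦ (C ∩ des x, C \ des x)` is a bijection from `(loc y).filter (x ∈ ·)` to
`loc x ×ˢ Q` with inverse `(R, C') ↦ R ∪ C'` (if `z ∈ C \ des x`, `z ≠ y`, then `φ z ∉ des x` by des_pre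
because z is off the cycle by des_step; if `C ∈ loc y` meets `des x` then `x ∈ C`: follow `φ`, never
meeting `y` because `y ∉ des x`; so for `x ∉ C` the set `C` is disjoint from `des x`). Hence
`w y = (1 + w x) q` and `a y = sum over all C ≥ sum (1 + |C ∩ des x|) = w y + q * a x`. With
`a x ≤ w x (1 + w x)` (from hs) the claim follows: `a x (1 + w x) q ≤ w x (1 + w x) q + w x q a x`. -/
theorem jam_step (hc : Cyc φ c) {x : V} (hx : Off c x) (hn : φ x ∉ des φ c x)
    (hs : 2 * aN φ c x ≤ wN φ c x * (wN φ c x + 1)) :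
    aN φ c x * wN φ c (φ x) ≤ aN φ c (φ x) * wN φ c x := by
  set Q := (loc φ c (φ x)).filter (fun C => x ∉ C) with hQ
  set P := (loc φ c (φ x)).filter (fun C => x ∈ C) with hP
  have hw : wN φ c (φ x) = wN φ c x * Q.card + Q.card := by
    have h1 := J1_sum (c := c) hx hn (fun _ => 1)
    rw [← card_eq_sum_ones, ← card_eq_sum_ones, card_product] at h1
    unfold wN
    rw [← h1]
    exact (card_filter_add_card_filter_not (s := loc φ c (φ x)) (fun C => x ∈ C)).symm
  have ha : Q.card + Q.card * aN φ c x + Q.card * wN φ c x ≤ aN φ c (φ x) := by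
    have h1 := J1_sum (c := c) hx hn (fun C => C.card)
    have h2 : aN φ c (φ x) = ∑ C ∈ P, C.card + ∑ C ∈ Q, C.card := by
      unfold aN
      exact (sum_filter_add_sum_filter_not _ _ _).symm
    have h3 : Q.card ≤ ∑ C ∈ Q, C.card := by
      rw [card_eq_sum_ones]
      apply sum_le_sum
      intro C hC
      rw [hQ, mem_filter] at hC
      have h4 := hC.1
      unfold loc at h4
      rw [mem_tr] at h4
      exact card_pos.mpr ⟨_, h4.2.1⟩
    have h5 : Q.card * aN φ c x + Q.card * wN φ c x ≤ ∑ C ∈ P, C.card := by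
      have h6 : ∑ p ∈ (loc φ c x) ×ˢ Q, (p.1.card + 1) ≤ ∑ p ∈ (loc φ c x) ×ˢ Q, (p.1 ∪ p.2).card := by
        apply sum_le_sum
        intro p hp
        rw [mem_product] at hp
        have h7 := J1_disj hn hp.2
        have h8 : p.1 ⊆ des φ c x := by
          have := hp.1
          unfold loc at this
          exact (mem_tr.mp this).1
        have h9 : Disjoint p.1 p.2 := (h7.mono_right h8).symm
        rw [card_union_of_disjoint h9]
        have h10 := hp.2
        rw [hQ, mem_filter] at h10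
        have h11 := h10.1
        unfold loc at h11
        rw [mem_tr] at h11
        have := card_pos.mpr ⟨_, h11.2.1⟩
        omega
      have h12 : ∑ p ∈ (loc φ c x) ×ˢ Q, (p.1.card + 1) =
          Q.card * aN φ c x + Q.card * wN φ c x := by
        rw [sum_product]
        simp only [sum_const, smul_eq_mul]
        rw [← mul_sum, sum_add_distrib, mul_add]
        unfold aN wN
        rw [← card_eq_sum_ones]
      rw [hP, h1]
      rw [← h12]
      exact h6
    rw [h2]
    omega
  have key : aN φ c x * (wN φ c x * Q.card + Q.card) ≤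
      (Q.card + Q.card * aN φ c x + Q.card * wN φ c x) * wN φ c x := by
    have h := Nat.mul_le_mul_left Q.card (show aN φ c x ≤ wN φ c x * (wN φ c x + 1) by omega)
    nlinarith [h]
  calc aN φ c x * wN φ c (φ x) = aN φ c x * (wN φ c x * Q.card + Q.card) := by rw [hw]
    _ ≤ _ := key
    _ ≤ aN φ c (φ x) * wN φ c x := Nat.mul_le_mul_right _ ha

end Pool.Agent.LibUS88
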