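import Mathlib

set_option autoImplicit false

namespace Pool.Agent.LibUS88

open Finset

private theorem tail_aux (x : ℚ) (k : ℕ) :
    ∑ m ∈ Finset.Ico 1 k, max ((m : ℚ) - x) 0 ≤ max ((k : ℚ) - x) 0 ^ 2 / 2 := by
  induction k with
  | zero => simp; positivity
  | succ k ih =>
    rcases Nat.eq_zero_or_pos k with rfl | hk
    · simp
      positivity
    rw [Finset.sum_Ico_succ_top (by omega)]
    push_cast
    rcases le_total ((k : ℚ) - x) 0 with h | h
    · rw [max_eq_right h] at ih ⊢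
      have h2 : 0 ≤ max ((k : ℚ) + 1 - x) 0 ^ 2 / 2 := by positivity
      linarith
    · rw [max_eq_left h] at ih ⊢
      rw [max_eq_left (by linarith : (0 : ℚ) ≤ (k : ℚ) + 1 - x)]
      nlinarith

theorem refl_sum (f : ℕ → ℚ) (k : ℕ) :
    ∑ d ∈ Finset.Ico 1 k, f (k - d) = ∑ m ∈ Finset.Ico 1 k, f m := by
  apply Finset.sum_nbij' (fun d => k - d) (fun d => k - d)
  · intro d hd
    rw [Finset.mem_Ico] at hd ⊢
    omega
  · intro d hd
    rw [Finset.mem_Ico] at hd ⊢
    omega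
  · intro d hd
    rw [Finset.mem_Ico] at hd
    omega
  · intro d hd
    rw [Finset.mem_Ico] at hd
    omega
  · intro d _
    rfl

theorem tail_sum (x : ℚ) (k : ℕ) :
    ∑ d ∈ Finset.Ico 1 k, max (((k - d : ℕ) : ℚ) - x) 0 ≤ ((k : ℚ) - x) ^ 2 / 2 := by
  rw [refl_sum (fun m => max ((m : ℚ) - x) 0) k]
  have h1 := tail_aux x k
  have h2 : max ((k : ℚ) - x) 0 ^ 2 ≤ ((k : ℚ) - x) ^ 2 := by
    rcases le_total ((k : ℚ) - x) 0 with h | h
    · rw [max_eq_right h]
      positivity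
    · rw [max_eq_left h]
  linarith

/-- The numerical core: the order of a tree is positively correlated with its number of cycle
vertices, and the mean order is at least each `a i / w i`. -/
theorem core {ι α : Type*} [Fintype ι] [DecidableEq ι] (M : Finset α) (top : α → ι)
    (kap : α → ℕ) (ordr : α → ℚ) (rh : ι → α → ℚ) (mem : ι → α → Prop)
    [∀ i, DecidablePred (mem i)] (w a : ι → ℚ)
    (hord : ∀ T ∈ M, ordr T = (kap T : ℚ) + ∑ i, rh i T)
    (hrh : ∀ i T, 0 ≤ rh i T)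
    (hk : ∀ T ∈ M, 1 ≤ kap T)
    (hw : ∀ i, 1 ≤ w i) (haw : ∀ i, w i ≤ a i) (hs : ∀ i, 2 * a i ≤ w i * (w i + 1))
    (hind : ∀ i (f : ℕ → ℚ), w i * ∑ T ∈ M, rh i T * f (kap T) =
      (a i - w i) * ∑ T ∈ M.filter (fun T => mem i T), f (kap T))
    (hext : ∀ i (f : ℕ → ℚ), (∀ n, 0 ≤ f n) → w i * ∑ T ∈ M.filter (fun T => ¬ mem i T), f (kap T) ≤
      ∑ T ∈ M.filter (fun T => top T = i), ∑ d ∈ Finset.Ico 1 (kap T), f (kap T - d))
    (hne : ∃ T ∈ M, ∃ T' ∈ M, kap T ≠ kap T') :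
    (0 < (M.card : ℚ) * (∑ T ∈ M, ordr T * ((kap T : ℚ) - 1)) -
      (∑ T ∈ M, ordr T) * (∑ T ∈ M, ((kap T : ℚ) - 1))) ∧
    (∀ i, a i * (M.card : ℚ) ≤ w i * ∑ T ∈ M, ordr T) ∧
    0 ≤ ∑ T ∈ M, ((kap T : ℚ) - 1) := by
  classical
  obtain ⟨T0, hT0, T1, hT1, hT01⟩ := hne
  have hMpos : (0 : ℚ) < (M.card : ℚ) := by
    have : 0 < M.card := card_pos.mpr ⟨T0, hT0⟩
    exact_mod_cast this
  have hk1 : ∀ T ∈ M, (0 : ℚ) ≤ (kap T : ℚ) - 1 := by
    intro T hT
    have := hk T hT
    have h2 : (1 : ℚ) ≤ (kap T : ℚ) := by exact_mod_cast this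
    linarith
  have hK : 0 ≤ ∑ T ∈ M, ((kap T : ℚ) - 1) := Finset.sum_nonneg hk1
  have hb : ∀ i, 0 ≤ a i - w i := fun i => by linarith [haw i]
  have hb2 : ∀ i, a i - w i ≤ w i * w i / 2 := fun i => by nlinarith [hs i, hw i]
  refine ⟨?_, ?_, hK⟩
  · set n : ℚ := (M.card : ℚ) with hn
    set kb : ℚ := (∑ T ∈ M, (kap T : ℚ)) / n with hkb
    have hsum0 : ∑ T ∈ M, ((kap T : ℚ) - kb) = 0 := by
      rw [Finset.sum_sub_distrib, Finset.sum_const, nsmul_eq_mul, ← hn, hkb]
      field_simp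
      ring
    have hrho : ∀ i, -(1 / 4) * ∑ T ∈ M.filter (fun T => top T = i), ((kap T : ℚ) - kb) ^ 2 ≤
        ∑ T ∈ M, rh i T * ((kap T : ℚ) - kb) := by
      intro i
      have h1 := hind i (fun m => (m : ℚ) - kb)
      have h2 := hext i (fun m => max ((m : ℚ) - kb) 0) (fun m => le_max_right _ _)
      have h3 := Finset.sum_filter_add_sum_filter_not M (fun T => mem i T)
        (fun T => (kap T : ℚ) - kb)
      rw [hsum0] at h3
      have h4 : ∑ T ∈ M.filter (fun T => ¬ mem i T), ((kap T : ℚ) - kb) ≤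
          ∑ T ∈ M.filter (fun T => ¬ mem i T), max ((kap T : ℚ) - kb) 0 :=
        Finset.sum_le_sum (fun T _ => le_max_left _ _)
      have h5 : ∑ T ∈ M.filter (fun T => top T = i), ∑ d ∈ Finset.Ico 1 (kap T),
          max (((kap T - d : ℕ) : ℚ) - kb) 0 ≤
          ∑ T ∈ M.filter (fun T => top T = i), ((kap T : ℚ) - kb) ^ 2 / 2 :=
        Finset.sum_le_sum (fun T _ => tail_sum kb (kap T))
      rw [← Finset.sum_div] at h5
      set X := ∑ T ∈ M, rh i T * ((kap T : ℚ) - kb) with hX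
      set P := ∑ T ∈ M.filter (fun T => mem i T), ((kap T : ℚ) - kb) with hP
      set Q := ∑ T ∈ M.filter (fun T => ¬ mem i T), ((kap T : ℚ) - kb) with hQ
      set R := ∑ T ∈ M.filter (fun T => ¬ mem i T), max ((kap T : ℚ) - kb) 0 with hR
      set S := ∑ T ∈ M.filter (fun T => top T = i), ((kap T : ℚ) - kb) ^ 2 with hS
      have hS0 : 0 ≤ S := Finset.sum_nonneg (fun T _ => sq_nonneg _)
      have hwi := hw i
      have hbi := hb i
      have hb2i := hb2 i
      have h6 : w i * R ≤ S / 2 := le_trans h2 h5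
      have hPQ : P = - Q := by linarith
      have h7 : w i * X = (a i - w i) * P := h1
      have h8 : -(w i * w i / 2 * (S / 2)) ≤ w i * (w i * X) := by
        rw [h7, hPQ]
        have h9 : (a i - w i) * (w i * Q) ≤ (a i - w i) * (S / 2) := by
          apply mul_le_mul_of_nonneg_left _ hbi
          exact le_trans (mul_le_mul_of_nonneg_left h4 (by linarith)) h6
        have h10 : (a i - w i) * (S / 2) ≤ w i * w i / 2 * (S / 2) :=
          mul_le_mul_of_nonneg_right hb2i (by linarith)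
        nlinarith
      have hww : 0 < w i * w i := by positivity
      have h11 : w i * w i * (-(1 / 4) * S) ≤ w i * w i * X := by nlinarith
      exact le_of_mul_le_mul_left h11 hww
    have hsumall : -(1 / 4) * ∑ T ∈ M, ((kap T : ℚ) - kb) ^ 2 ≤
        ∑ i, ∑ T ∈ M, rh i T * ((kap T : ℚ) - kb) := by
      have h1 : ∑ T ∈ M, ((kap T : ℚ) - kb) ^ 2 =
          ∑ i, ∑ T ∈ M.filter (fun T => top T = i), ((kap T : ℚ) - kb) ^ 2 :=
        (Finset.sum_fiberwise M top _).symm
      rw [h1, Finset.mul_sum]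
      exact Finset.sum_le_sum (fun i _ => hrho i)
    have hmain : ∑ T ∈ M, ordr T * ((kap T : ℚ) - kb) =
        ∑ T ∈ M, ((kap T : ℚ) - kb) ^ 2 + ∑ i, ∑ T ∈ M, rh i T * ((kap T : ℚ) - kb) := by
      rw [Finset.sum_comm (s := (univ : Finset ι)), ← Finset.sum_add_distrib]
      have h1 : ∑ T ∈ M, ordr T * ((kap T : ℚ) - kb) =
          ∑ T ∈ M, ((((kap T : ℚ) - kb) ^ 2 + ∑ i, rh i T * ((kap T : ℚ) - kb)) +
            kb * ((kap T : ℚ) - kb)) := by
        apply Finset.sum_congr rfl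
        intro T hT
        rw [hord T hT, ← Finset.sum_mul]
        ring
      rw [h1, Finset.sum_add_distrib, ← Finset.mul_sum, hsum0]
      ring
    have hsq : 0 < ∑ T ∈ M, ((kap T : ℚ) - kb) ^ 2 := by
      have hc : (kap T0 : ℚ) - kb ≠ 0 ∨ (kap T1 : ℚ) - kb ≠ 0 := by
        by_contra hcon
        push Not at hcon
        apply hT01
        have : (kap T0 : ℚ) = (kap T1 : ℚ) := by linarith [hcon.1, hcon.2]
        exact_mod_cast this
      rcases hc with hc | hc
      · exact Finset.sum_pos' (fun T _ => sq_nonneg _) ⟨T0, hT0, by positivity⟩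
      · exact Finset.sum_pos' (fun T _ => sq_nonneg _) ⟨T1, hT1, by positivity⟩
    have hpos : 0 < ∑ T ∈ M, ordr T * ((kap T : ℚ) - kb) := by
      rw [hmain]
      linarith
    have hfin : n * (∑ T ∈ M, ordr T * ((kap T : ℚ) - 1)) -
        (∑ T ∈ M, ordr T) * (∑ T ∈ M, ((kap T : ℚ) - 1)) =
        n * ∑ T ∈ M, ordr T * ((kap T : ℚ) - kb) := by
      have e1 : ∑ T ∈ M, ordr T * ((kap T : ℚ) - 1) =
          ∑ T ∈ M, ordr T * (kap T : ℚ) - ∑ T ∈ M, ordr T := by
        rw [← Finset.sum_sub_distrib]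
        apply Finset.sum_congr rfl
        intro T _
        ring
      have e2 : ∑ T ∈ M, ordr T * ((kap T : ℚ) - kb) =
          ∑ T ∈ M, ordr T * (kap T : ℚ) - (∑ T ∈ M, ordr T) * kb := by
        rw [Finset.sum_mul, ← Finset.sum_sub_distrib]
        apply Finset.sum_congr rfl
        intro T _
        ring
      have e3 : ∑ T ∈ M, ((kap T : ℚ) - 1) = n * kb - n := by
        rw [Finset.sum_sub_distrib, Finset.sum_const, nsmul_eq_mul, ← hn, hkb]
        field_simp
      rw [e1, e2, e3]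
      ring
    rw [hfin]
    exact mul_pos hMpos hpos
  · intro i
    have h1 := hind i (fun _ => 1)
    have h2 := hext i (fun _ => 1) (fun _ => by norm_num)
    simp only [mul_one, Finset.sum_const, nsmul_eq_mul, Nat.card_Ico] at h1 h2
    have h3 : ((M.filter (fun T => mem i T)).card : ℚ) +
        ((M.filter (fun T => ¬ mem i T)).card : ℚ) = (M.card : ℚ) := by
      have := Finset.card_filter_add_card_filter_not (s := M) (fun T => mem i T)
      exact_mod_cast this
    have h4 : ∑ T ∈ M.filter (fun T => top T = i), ((kap T - 1 : ℕ) : ℚ) ≤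
        ∑ T ∈ M, ((kap T : ℚ) - 1) := by
      have h41 : ∑ T ∈ M.filter (fun T => top T = i), ((kap T - 1 : ℕ) : ℚ) =
          ∑ T ∈ M.filter (fun T => top T = i), ((kap T : ℚ) - 1) := by
        apply Finset.sum_congr rfl
        intro T hT
        rw [Nat.cast_sub (hk T (Finset.mem_of_mem_filter _ hT))]
        simp
      rw [h41]
      exact Finset.sum_le_sum_of_subset_of_nonneg (Finset.filter_subset _ _)
        (fun T hT _ => hk1 T hT)
    have h5 : ∑ T ∈ M, ordr T ≥ (M.card : ℚ) + ∑ T ∈ M, ((kap T : ℚ) - 1) + ∑ T ∈ M, rh i T := by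
      have h51 : ∑ T ∈ M, ordr T = (M.card : ℚ) + ∑ T ∈ M, ((kap T : ℚ) - 1) +
          ∑ T ∈ M, ∑ j, rh j T := by
        rw [Finset.sum_congr rfl hord, Finset.sum_add_distrib, Finset.sum_sub_distrib,
          Finset.sum_const, nsmul_eq_mul, mul_one]
        ring
      rw [h51]
      have h52 : ∑ T ∈ M, rh i T ≤ ∑ T ∈ M, ∑ j, rh j T :=
        Finset.sum_le_sum (fun T _ =>
          Finset.single_le_sum (f := fun j => rh j T) (fun j _ => hrh j T) (mem_univ i))
      linarith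
    set K := ∑ T ∈ M, ((kap T : ℚ) - 1) with hKd
    set X := ∑ T ∈ M, rh i T with hX
    set P := ((M.filter (fun T => mem i T)).card : ℚ) with hP
    set Q := ((M.filter (fun T => ¬ mem i T)).card : ℚ) with hQ
    have hwi := hw i
    have hbi := hb i
    have hb2i := hb2 i
    have h6 : w i * Q ≤ K := le_trans h2 h4
    have h7 : w i * X = (a i - w i) * P := h1
    have h8 : w i * (w i * X) ≥ w i * ((a i - w i) * (M.card : ℚ)) - w i * w i / 2 * K := by
      rw [h7, ← h3]
      have h9 : (a i - w i) * (w i * Q) ≤ (a i - w i) * K := mul_le_mul_of_nonneg_left h6 hbi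
      have h10 : (a i - w i) * K ≤ w i * w i / 2 * K := mul_le_mul_of_nonneg_right hb2i hK
      nlinarith
    have hwpos : 0 < w i := by linarith
    have h9 : w i * X ≥ (a i - w i) * (M.card : ℚ) - w i / 2 * K := by
      have h10 : w i * ((a i - w i) * (M.card : ℚ) - w i / 2 * K) ≤ w i * (w i * X) := by
        nlinarith
      exact le_of_mul_le_mul_left h10 hwpos
    have h10 : w i * ∑ T ∈ M, ordr T ≥ w i * ((M.card : ℚ) + K + X) :=
      mul_le_mul_of_nonneg_left h5 hwpos.le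
    nlinarith [mul_nonneg hwpos.le hK]

end Pool.Agent.LibUS88
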