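import Mathlib
import Pool.Agent.LibUS88.Defs2

set_option autoImplicit false
set_option linter.unusedSectionVars false

namespace Pool.Agent.LibUS88

open Finset Pool.Agent.LibMST Pool.Agent.LibMSB

variable {V : Type*} [Fintype V] [DecidableEq V] {φ : V → V} {g : ℕ} {c : ZMod g → V}

private theorem ex_des (hc : Cyc φ c) (y : V) : ∃ i, y ∈ des φ c (c i) := by
  classical
  have hr' : ∃ m, ∃ i, φ^[m] y = c i := hc.reach y
  obtain ⟨i, hi⟩ := Nat.find_spec hr'
  refine ⟨i, ?_⟩
  rw [mem_des]
  refine ⟨Nat.find hr', hi, ?_⟩
  intro m hm j hj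
  exact Nat.find_min hr' hm ⟨j, hj⟩

private theorem uniq_des (hc : Cyc φ c) {y : V} {i j : ZMod g} (hi : y ∈ des φ c (c i))
    (hj : y ∈ des φ c (c j)) : i = j := by
  rw [mem_des] at hi hj
  obtain ⟨n, hn, hno⟩ := hi
  obtain ⟨m, hm, hmo⟩ := hj
  rcases lt_trichotomy n m with h | h | h
  · exact absurd hn (hmo n h i)
  · subst h
    exact hc.inj (hn.symm.trans hm)
  · exact absurd hm (hno m h j)

/-- Every vertex is either on the cycle or in exactly one `(des (c i)).erase (c i)`.
Plan. For `x` off the cycle let `n` be least with `φ^[n] x` on the cycle (exists by `hc.reach`); then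
`x ∈ des (c i)` for `φ^[n] x = c i`, and `i` is unique (both `n` are the least one, `c` injective). -/
theorem card_dec [NeZero g] (hc : Cyc φ c) (C : Finset V) :
    C.card = kk c C + ∑ i : ZMod g, rho φ c i C := by
  classical
  have hD : ∀ i j : ZMod g, i ≠ j → Disjoint (des φ c (c i)) (des φ c (c j)) := by
    intro i j hij
    rw [Finset.disjoint_left]
    intro x hx hx'
    exact hij (uniq_des hc hx hx')
  have h1 : C.card = ∑ i : ZMod g, (C ∩ des φ c (c i)).card := by
    rw [← Finset.card_biUnion]
    · congr 1
      ext x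
      simp only [mem_biUnion, mem_univ, true_and, mem_inter]
      constructor
      · intro hx
        obtain ⟨i, hi⟩ := ex_des hc x
        exact ⟨i, hx, hi⟩
      · rintro ⟨i, hx, _⟩
        exact hx
    · intro i _ j _ hij
      exact (hD i j hij).mono inter_subset_right inter_subset_right
  have h2 : ∀ i : ZMod g, (C ∩ des φ c (c i)).card =
      (if c i ∈ C then 1 else 0) + rho φ c i C := by
    intro i
    unfold rho
    have hself := des_self φ c (c i)
    split_ifs with hi
    · have h3 : C ∩ des φ c (c i) = insert (c i) (C ∩ (des φ c (c i)).erase (c i)) := by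
        ext x
        simp only [mem_inter, mem_insert, mem_erase]
        constructor
        · rintro ⟨hx, hd⟩
          by_cases hxi : x = c i
          · exact Or.inl hxi
          · exact Or.inr ⟨hx, hxi, hd⟩
        · rintro (hx | ⟨hx, _, hd⟩)
          · rw [hx]
            exact ⟨hi, hself⟩
          · exact ⟨hx, hd⟩
      rw [h3, card_insert_of_notMem, add_comm]
      simp
    · rw [zero_add]
      congr 1
      ext x
      simp only [mem_inter, mem_erase]
      constructor
      · rintro ⟨hx, hd⟩
        refine ⟨hx, ?_, hd⟩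
        rintro rfl
        exact hi hx
      · rintro ⟨hx, _, hd⟩
        exact ⟨hx, hd⟩
  rw [h1, Finset.sum_congr rfl (fun i _ => h2 i), Finset.sum_add_distrib]
  congr 1
  unfold kk
  rw [Finset.card_filter]

end Pool.Agent.LibUS88
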