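import Mathlib
import Pool.Agent.LibUS88.Defs2

set_option autoImplicit false
set_option linter.unusedSectionVars false

namespace Pool.Agent.LibUS88

open Finset Pool.Agent.LibMST Pool.Agent.LibMSB

variable {V : Type*} [Fintype V] [DecidableEq V] {φ : V → V} {g : ℕ} {c : ZMod g → V}

private theorem p1_off {φ : V → V} {g : ℕ} {c : ZMod g → V} {i : ZMod g} {z : V}
    (hz : z ∈ (des φ c (c i)).erase (c i)) : Off c z ∧ φ z ∈ des φ c (c i) := by
  rw [mem_erase] at hz
  exact des_step hz.2 hz.1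

private theorem p1_cyc {φ : V → V} {g : ℕ} {c : ZMod g → V} (i k : ZMod g) :
    c k ∉ (des φ c (c i)).erase (c i) := fun h => (p1_off h).1 k rfl

private theorem p1_pre {φ : V → V} {g : ℕ} {c : ZMod g → V} (hc : Cyc φ c) {i : ZMod g} {z : V}
    (hz : φ z ∈ (des φ c (c i)).erase (c i)) : z ∈ (des φ c (c i)).erase (c i) := by
  have h1 := (p1_off hz).1
  have h2 : Off c z := by
    intro k hk
    apply h1 (k + 1)
    rw [hk, hc.step]
  rw [mem_erase] at hz ⊢
  exact ⟨h2 i, des_pre hz.2 h2⟩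

private theorem p1_disj {φ : V → V} {g : ℕ} {c : ZMod g → V} {i : ZMod g} {C : Finset V} {x : V}
    (hd : Disjoint C ((des φ c (c i)).erase (c i))) (hx : x ∈ C) (hx2 : x ∈ des φ c (c i)) :
    x = c i := by
  by_contra hne
  exact disjoint_left.mp hd hx (mem_erase.mpr ⟨hne, hx2⟩)

private theorem p1_sum (φ : V → V) {g : ℕ} (c : ZMod g → V) [NeZero g] (hc : Cyc φ c)
    (i j : ZMod g) (G : Finset V → ℚ) :
    ∑ C ∈ (tr φ univ (c j)).filter (fun C => c i ∈ C), G C =
      ∑ p ∈ ((tr φ univ (c j)).filter (fun C => c i ∈ C ∧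
        Disjoint C ((des φ c (c i)).erase (c i)))) ×ˢ loc φ c (c i), G (p.1 ∪ p.2) := by
  refine Finset.sum_nbij' (fun C => (C \ (des φ c (c i)).erase (c i), C ∩ des φ c (c i)))
    (fun p => p.1 ∪ p.2) ?_ ?_ ?_ ?_ ?_
  · intro C hC
    rw [mem_filter, mem_tr] at hC
    obtain ⟨⟨_, h1, h2⟩, h3⟩ := hC
    rw [mem_product, mem_filter, mem_tr]
    refine ⟨⟨⟨subset_univ _, mem_sdiff.mpr ⟨h1, p1_cyc i j⟩, ?_⟩, mem_sdiff.mpr ⟨h3, p1_cyc i i⟩,
      sdiff_disjoint⟩, ?_⟩
    · intro x hx hne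
      rw [mem_sdiff] at hx ⊢
      exact ⟨h2 x hx.1 hne, fun h => hx.2 (p1_pre hc h)⟩
    · unfold loc
      rw [mem_tr]
      refine ⟨inter_subset_right, mem_inter.mpr ⟨h3, des_self φ c (c i)⟩, ?_⟩
      intro x hx hne
      rw [mem_inter] at hx ⊢
      have h4 := des_step hx.2 hne
      exact ⟨h2 x hx.1 (h4.1 j), h4.2⟩
  · intro p hp
    rw [mem_product, mem_filter, mem_tr] at hp
    obtain ⟨⟨⟨_, h1, h2⟩, h3, h4⟩, h5⟩ := hp
    unfold loc at h5
    rw [mem_tr] at h5
    obtain ⟨h6, h7, h8⟩ := h5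
    rw [mem_filter, mem_tr]
    refine ⟨⟨subset_univ _, mem_union_left _ h1, ?_⟩, mem_union_left _ h3⟩
    intro x hx hne
    rcases mem_union.mp hx with hx | hx
    · exact mem_union_left _ (h2 x hx hne)
    · by_cases hxi : x = c i
      · exact mem_union_left _ (h2 x (by rw [hxi]; exact h3) hne)
      · exact mem_union_right _ (h8 x hx hxi)
  · intro C hC
    ext x
    simp only [mem_union, mem_sdiff, mem_inter, mem_erase]
    tauto
  · intro p hp
    rw [mem_product, mem_filter, mem_tr] at hp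
    obtain ⟨⟨⟨_, h1, h2⟩, h3, h4⟩, h5⟩ := hp
    unfold loc at h5
    rw [mem_tr] at h5
    obtain ⟨h6, h7, h8⟩ := h5
    refine Prod.ext ?_ ?_
    · ext x
      simp only [mem_union, mem_sdiff]
      constructor
      · rintro ⟨hx | hx, hn⟩
        · exact hx
        · have : x = c i := by
            by_contra hne
            exact hn (mem_erase.mpr ⟨hne, h6 hx⟩)
          rw [this]
          exact h3
      · intro hx
        exact ⟨Or.inl hx, fun h => disjoint_left.mp h4 hx h⟩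
    · ext x
      simp only [mem_union, mem_inter]
      constructor
      · rintro ⟨hx | hx, hd⟩
        · rw [p1_disj h4 hx hd]
          exact h7
        · exact hx
      · intro hx
        exact ⟨Or.inr hx, h6 hx⟩
  · intro C hC
    congr 1
    ext x
    simp only [mem_union, mem_sdiff, mem_inter, mem_erase]
    tauto

private theorem p1_kk {φ : V → V} {g : ℕ} {c : ZMod g → V} [NeZero g] {i : ZMod g}
    {C R : Finset V} (hC : c i ∈ C) (hR : R ∈ loc φ c (c i)) : kk c (C ∪ R) = kk c C := by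
  unfold loc at hR
  rw [mem_tr] at hR
  unfold kk
  congr 1
  ext k
  simp only [mem_filter, mem_univ, true_and, mem_union]
  constructor
  · rintro (h | h)
    · exact h
    · by_cases he : c k = c i
      · rw [he]
        exact hC
      · exact absurd (mem_erase.mpr ⟨he, hR.1 h⟩) (p1_cyc i k)
  · exact Or.inl

private theorem p1_rho {φ : V → V} {g : ℕ} {c : ZMod g → V} {i : ZMod g}
    {C R : Finset V} (hd : Disjoint C ((des φ c (c i)).erase (c i))) (hR : R ∈ loc φ c (c i)) :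
    (rho φ c i (C ∪ R) : ℚ) = (R.card : ℚ) - 1 := by
  unfold loc at hR
  rw [mem_tr] at hR
  have h1 : (C ∪ R) ∩ (des φ c (c i)).erase (c i) = R.erase (c i) := by
    ext x
    simp only [mem_inter, mem_union, mem_erase]
    constructor
    · rintro ⟨h | h, hn, hx⟩
      · exact absurd (p1_disj hd h hx) hn
      · exact ⟨hn, h⟩
    · rintro ⟨hn, h⟩
      exact ⟨Or.inr h, hn, hR.1 h⟩
  unfold rho
  rw [h1, card_erase_of_mem hR.2.1, Nat.cast_sub (card_pos.mpr ⟨_, hR.2.1⟩)]
  simp

/-- Independence of the part of a tree hanging at `c i` (the trees in `tr φ univ (c j)` are the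
sets `C` with `c j ∈ C`, closed under `φ` except at `c j`; `top_mem` in Defs: if such a `C` meets
`des (c i)` then `c i ∈ C`).
Plan. `D = des (c i)`, `P = D.erase (c i)` (all vertices of `P` are off the cycle, `φ` maps `P` into `D`,
and `φ z ∈ P` implies `z ∈ P` unless `z` is on the cycle, but then `φ z` is on the cycle, so never).
Terms with `c i ∉ C` vanish (`rho = 0`). The map `C ↦ (C \ P, C ∩ D)` is a bijection from
`(tr φ univ (c j)).filter (c i ∈ ·)` to `M' ×ˢ loc (c i)`, `M' = (tr φ univ (c j)).filter (fun C => c i ∈ C ∧ Disjoint C P)`,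
inverse `(C', R) ↦ C' ∪ R`; `kk C = kk (C \ P)`, `rho i C = (C ∩ D).card - 1`. So both sides are
`w * (a - w) * sum over M' of f (kk C')`. -/
theorem indep [NeZero g] (hc : Cyc φ c) (i j : ZMod g) (f : ℕ → ℚ) :
    (wN φ c (c i) : ℚ) * ∑ C ∈ tr φ univ (c j), (rho φ c i C : ℚ) * f (kk c C) =
      ((aN φ c (c i) : ℚ) - wN φ c (c i)) *
        ∑ C ∈ (tr φ univ (c j)).filter (fun C => c i ∈ C), f (kk c C) := by
  have hz : ∑ C ∈ tr φ univ (c j), (rho φ c i C : ℚ) * f (kk c C) =
      ∑ C ∈ (tr φ univ (c j)).filter (fun C => c i ∈ C), (rho φ c i C : ℚ) * f (kk c C) := by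
    symm
    apply Finset.sum_subset (filter_subset _ _)
    intro C hC hn
    have hi : c i ∉ C := fun h => hn (mem_filter.mpr ⟨hC, h⟩)
    rw [mem_tr] at hC
    have h0 : rho φ c i C = 0 := by
      unfold rho
      rw [card_eq_zero, eq_empty_iff_forall_notMem]
      intro x hx
      rw [mem_inter, mem_erase] at hx
      exact hi (top_mem (c j) hC.2.2 ⟨j, rfl⟩ hx.1 hx.2.2)
    rw [h0]
    simp
  have hw : ∑ R ∈ loc φ c (c i), ((R.card : ℚ) - 1) = (aN φ c (c i) : ℚ) - wN φ c (c i) := by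
    unfold aN wN
    rw [Finset.sum_sub_distrib]
    push_cast
    simp
  rw [hz, p1_sum φ c hc i j, p1_sum φ c hc i j]
  have e1 : ∑ p ∈ ((tr φ univ (c j)).filter (fun C => c i ∈ C ∧
      Disjoint C ((des φ c (c i)).erase (c i)))) ×ˢ loc φ c (c i),
      (rho φ c i (p.1 ∪ p.2) : ℚ) * f (kk c (p.1 ∪ p.2)) =
      (∑ C ∈ (tr φ univ (c j)).filter (fun C => c i ∈ C ∧
      Disjoint C ((des φ c (c i)).erase (c i))), f (kk c C)) *
      ((aN φ c (c i) : ℚ) - wN φ c (c i)) := by
    rw [← hw, Finset.sum_mul_sum, ← Finset.sum_product']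
    apply Finset.sum_congr rfl
    intro p hp
    rw [mem_product, mem_filter] at hp
    rw [p1_kk hp.1.2.1 hp.2, p1_rho hp.1.2.2 hp.2, mul_comm]
  have e2 : ∑ p ∈ ((tr φ univ (c j)).filter (fun C => c i ∈ C ∧
      Disjoint C ((des φ c (c i)).erase (c i)))) ×ˢ loc φ c (c i),
      f (kk c (p.1 ∪ p.2)) =
      (∑ C ∈ (tr φ univ (c j)).filter (fun C => c i ∈ C ∧
      Disjoint C ((des φ c (c i)).erase (c i))), f (kk c C)) * (wN φ c (c i) : ℚ) := by
    have h1 : (wN φ c (c i) : ℚ) = ∑ _R ∈ loc φ c (c i), (1 : ℚ) := by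
      unfold wN
      simp
    rw [h1, Finset.sum_mul_sum, ← Finset.sum_product']
    apply Finset.sum_congr rfl
    intro p hp
    rw [mem_product, mem_filter] at hp
    rw [p1_kk hp.1.2.1 hp.2, mul_one]
  rw [e1, e2]
  ring

end Pool.Agent.LibUS88
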