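import Mathlib
import Pool.Agent.LibUS88.Defs2

set_option autoImplicit false
set_option linter.unusedSectionVars false

namespace Pool.Agent.LibUS88

open Finset Pool.Agent.LibMST Pool.Agent.LibMSB

variable {V : Type*} [Fintype V] [DecidableEq V] {φ : V → V} {g : ℕ} {c : ZMod g → V}

private theorem S1_abs {ι : Type*} (s : Finset ι) (f : ι → ℕ)
    (h : ∀ i ∈ s, f i ≤ 1 + (s.filter (fun j => f j < f i)).card) :
    2 * ∑ i ∈ s, f i ≤ s.card * (s.card + 1) := by
  classical
  have h1 : ∑ i ∈ s, f i ≤ s.card + ∑ i ∈ s, (s.filter (fun j => f j < f i)).card := by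
    calc ∑ i ∈ s, f i ≤ ∑ i ∈ s, (1 + (s.filter (fun j => f j < f i)).card) := sum_le_sum h
      _ = s.card + ∑ i ∈ s, (s.filter (fun j => f j < f i)).card := by
        rw [sum_add_distrib, sum_const, smul_eq_mul, mul_one]
  have h2 : ∑ i ∈ s, (s.filter (fun j => f j < f i)).card =
      ∑ i ∈ s, (s.filter (fun j => f i < f j)).card := by
    simp only [card_filter]
    rw [sum_comm]
  have h3 : ∀ i ∈ s, (s.filter (fun j => f j < f i)).card +
      (s.filter (fun j => f i < f j)).card + 1 ≤ s.card := by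
    intro i hi
    have hd : Disjoint (s.filter (fun j => f j < f i)) (s.filter (fun j => f i < f j)) := by
      rw [disjoint_left]
      intro j hj hj'
      have a1 := (mem_filter.1 hj).2
      have a2 := (mem_filter.1 hj').2
      omega
    have hn : i ∉ s.filter (fun j => f j < f i) ∪ s.filter (fun j => f i < f j) := by
      intro hj
      rcases mem_union.1 hj with hj | hj
      · exact absurd (mem_filter.1 hj).2 (lt_irrefl _)
      · exact absurd (mem_filter.1 hj).2 (lt_irrefl _)
    rw [← card_union_of_disjoint hd, ← card_insert_of_notMem hn]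
    apply card_le_card
    intro j hj
    rcases mem_insert.1 hj with rfl | hj
    · exact hi
    · rcases mem_union.1 hj with hj | hj
      · exact (mem_filter.1 hj).1
      · exact (mem_filter.1 hj).1
  have h4 : ∑ i ∈ s, ((s.filter (fun j => f j < f i)).card +
      (s.filter (fun j => f i < f j)).card + 1) ≤ s.card * s.card := by
    calc ∑ i ∈ s, ((s.filter (fun j => f j < f i)).card +
          (s.filter (fun j => f i < f j)).card + 1) ≤ ∑ i ∈ s, s.card := sum_le_sum h3
      _ = s.card * s.card := by rw [sum_const, smul_eq_mul]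
  rw [sum_add_distrib, sum_add_distrib, ← h2, sum_const, smul_eq_mul, mul_one] at h4
  nlinarith

open Classical in
private noncomputable def S1dep (φ : V → V) {g : ℕ} (c : ZMod g → V) (y x : V) : ℕ :=
  if h : Des φ c y x then Nat.find h else 0

private theorem S1_dep {y z : V} (hz : z ∈ des φ c y) (hne : z ≠ y) :
    S1dep φ c y (φ z) < S1dep φ c y z := by
  classical
  have hz' := mem_des.1 hz
  have hf := Nat.find_spec hz'
  have e1 : S1dep φ c y z = Nat.find hz' := dif_pos hz'
  obtain ⟨m, hm⟩ : ∃ m, Nat.find hz' = m + 1 := by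
    cases h0 : Nat.find hz' with
    | zero =>
      rw [h0] at hf
      exact absurd hf.1 hne
    | succ m => exact ⟨m, rfl⟩
  rw [hm] at hf
  have hP : φ^[m] (φ z) = y ∧ ∀ k < m, Off c (φ^[k] (φ z)) := by
    refine ⟨?_, ?_⟩
    · rw [← Function.iterate_succ_apply]
      exact hf.1
    · intro k hk
      rw [← Function.iterate_succ_apply]
      exact hf.2 (k + 1) (by omega)
  have hd : Des φ c y (φ z) := ⟨m, hP⟩
  have e2 : S1dep φ c y (φ z) = Nat.find hd := dif_pos hd
  have h3 : Nat.find hd ≤ m := Nat.find_min' hd hP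
  rw [e1, e2, hm]
  omega

private theorem S1_erase {y : V} {C : Finset V} (hC : C ∈ loc φ c y) (h1 : 1 < C.card) :
    ∃ C' ∈ loc φ c y, C'.card + 1 = C.card := by
  have hC' := hC
  unfold loc at hC'
  rw [mem_tr] at hC'
  obtain ⟨hs, hy, hcl⟩ := hC'
  have hne : (C.erase y).Nonempty := by
    rw [← card_pos, card_erase_of_mem hy]
    omega
  obtain ⟨x, hx, hmax⟩ := exists_max_image (C.erase y) (S1dep φ c y) hne
  have hxC := mem_of_mem_erase hx
  have hxy := ne_of_mem_erase hx
  refine ⟨C.erase x, ?_, card_erase_add_one hxC⟩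
  unfold loc
  rw [mem_tr]
  refine ⟨fun z hz => hs (mem_of_mem_erase hz), mem_erase.2 ⟨hxy.symm, hy⟩, ?_⟩
  intro z hz hzy
  have hzC := mem_of_mem_erase hz
  refine mem_erase.2 ⟨?_, hcl z hzC hzy⟩
  intro he
  have h2 := hmax z (mem_erase.2 ⟨hzy, hzC⟩)
  have h3 := S1_dep (hs hzC) hzy
  rw [he] at h3
  omega

private theorem S1_all {y : V} : ∀ (s : ℕ) (C : Finset V), C ∈ loc φ c y → C.card = s →
    ∀ t : ℕ, 1 ≤ t → t ≤ s → ∃ C' ∈ loc φ c y, C'.card = t := by
  intro s
  induction s with
  | zero =>
    intro C _ _ t h1 h2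
    omega
  | succ s ih =>
    intro C hC hs t h1 h2
    rcases Nat.lt_or_ge s t with h3 | h3
    · exact ⟨C, hC, by omega⟩
    · obtain ⟨C', hC', hc'⟩ := S1_erase hC (by omega)
      exact ih C' hC' (by omega) t h1 h3

/-- `2 * (total order) ≤ w (w + 1)` for the trees `loc y` (top `y`, inside `des y`).
Plan. For `x ∈ des y` let `dep x` be the least `n` as in `Des` (Nat.find). (1) If `C ∈ loc y` and
`1 < C.card`, take `x ∈ C`, `x ≠ y`, with `dep x` maximal; no `z ∈ C`, `z ≠ y`, has `φ z = x` (then
`dep x + 1 ≤ dep z`, by des_step); so `C.erase x ∈ loc y`. (2) Hence for every `C ∈ loc y` and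
`1 ≤ t ≤ C.card` some `C' ∈ loc y` has `C'.card = t`, so `C.card ≤ 1 + #{C' ∈ loc y : C'.card < C.card}`
(the map t -> C' is injective). (3) Sum over `C`, and #{(C, C') : C'.card < C.card} ≤ w (w - 1) / 2
(the pairs and the swapped pairs are disjoint and off the diagonal). -/
theorem sizes (y : V) : 2 * aN φ c y ≤ wN φ c y * (wN φ c y + 1) := by
  unfold aN wN
  apply S1_abs
  intro C hC
  have h1 : Ico 1 C.card ⊆ ((loc φ c y).filter (fun C' => C'.card < C.card)).image
      (fun C' => C'.card) := by
    intro t ht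
    rw [mem_Ico] at ht
    obtain ⟨C', hC', hc'⟩ := S1_all C.card C hC rfl t ht.1 (by omega)
    exact mem_image.2 ⟨C', mem_filter.2 ⟨hC', by omega⟩, hc'⟩
  have h2 := card_le_card h1
  have h3 := card_image_le (s := (loc φ c y).filter (fun C' => C'.card < C.card))
    (f := fun C' : Finset V => C'.card)
  rw [Nat.card_Ico] at h2
  omega

end Pool.Agent.LibUS88
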