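import Mathlib
import Pool.Agent.LibUS88.Defs2

set_option autoImplicit false
set_option linter.unusedSectionVars false

namespace Pool.Agent.LibUS88

open Finset Pool.Agent.LibMST Pool.Agent.LibMSB

variable {V : Type*} [Fintype V] [DecidableEq V] {φ : V → V} {g : ℕ} {c : ZMod g → V}

private theorem x1_notin [NeZero g] (hc : Cyc φ c) (i : ZMod g) (d : ℕ) (hd : d < g)
    {C : Finset V} (hcl : ∀ x ∈ C, x ≠ c (i - (d : ZMod g)) → φ x ∈ C) (hi : c i ∉ C) :
    ∀ t : ℕ, t < d → c (i - (t : ZMod g)) ∉ C := by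
  intro t
  induction t with
  | zero => intro _; simpa using hi
  | succ t ih =>
    intro ht hmem
    apply ih (by omega)
    have hne : c (i - ((t + 1 : ℕ) : ZMod g)) ≠ c (i - (d : ZMod g)) := by
      intro he
      have h1 := hc.inj he
      have h2 : ((t + 1 : ℕ) : ZMod g) = (d : ZMod g) := by
        have := congrArg (fun z => i - z) h1
        simpa using this
      rw [ZMod.natCast_eq_natCast_iff'] at h2
      rw [Nat.mod_eq_of_lt (by omega), Nat.mod_eq_of_lt hd] at h2
      omega
    have h3 := hcl _ hmem hne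
    rw [hc.step] at h3
    have h4 : i - ((t + 1 : ℕ) : ZMod g) + 1 = i - (t : ZMod g) := by
      push_cast
      ring
    rwa [h4] at h3

private theorem x1_injOn (i : ZMod g) (d : ℕ) (hd : d < g) :
    Set.InjOn (fun t : ℕ => i - (t : ZMod g)) (Finset.range d : Set ℕ) := by
  intro a ha b hb hab
  have ha' : a < d := by simpa using ha
  have hb' : b < d := by simpa using hb
  have h2 : (a : ZMod g) = (b : ZMod g) := by
    have := congrArg (fun z => i - z) hab
    simpa using this
  rw [ZMod.natCast_eq_natCast_iff'] at h2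
  rwa [Nat.mod_eq_of_lt (by omega), Nat.mod_eq_of_lt (by omega)] at h2

/-- Extension along the cycle: `(C, R) ↦ C ∪ A ∪ R` with `A = {c (i - t) : t < d}` is
injective from `{C with top c (i - d), c i ∉ C} × loc (c i)` into the trees with top `c i`, and
`kk` grows by `d`.
Plan. `c (i - t) ∉ C` for `t < d` (else, `C` being closed except at `c (i - d)`, `c i ∈ C`; use
`φ (c l) = c (l + 1)` and `d < g` so that none of these is `c (i - d)`); `C` is disjoint from
`des (c i)` (top_mem). Inverse: `C = U \ (A ∪ des (c i))`, `R = U ∩ des (c i)` (`A` meets `des (c i)`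
only in `c i`: des_step). `U = C ∪ A ∪ R` is closed except at `c i` and contains `c i`.
`{l : c l ∈ U} = {l : c l ∈ C} ⊔ {i - t : t < d}`. Then Finset.sum_image / sum_le_sum_of_subset_of_nonneg. -/
theorem ext [NeZero g] (hc : Cyc φ c) (i : ZMod g) (d : ℕ) (h1 : 1 ≤ d) (hd : d < g) (f : ℕ → ℚ)
    (hf : ∀ n, 0 ≤ f n) :
    (wN φ c (c i) : ℚ) *
        ∑ C ∈ (tr φ univ (c (i - (d : ZMod g)))).filter (fun C => c i ∉ C), f (kk c C) ≤
      ∑ C ∈ (tr φ univ (c i)).filter (fun C => d < kk c C), f (kk c C - d) := by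
  classical
  set S : Finset (Finset V) :=
    (tr φ univ (c (i - (d : ZMod g)))).filter (fun C => c i ∉ C) with hS
  set A : Finset V := (Finset.range d).image (fun t : ℕ => c (i - (t : ZMod g))) with hA
  set F : Finset V × Finset V → Finset V := fun p => p.1 ∪ A ∪ p.2 with hF
  have hSm : ∀ C, C ∈ S → c (i - (d : ZMod g)) ∈ C ∧
      (∀ x ∈ C, x ≠ c (i - (d : ZMod g)) → φ x ∈ C) ∧ c i ∉ C := by
    intro C hC
    rw [hS, mem_filter, mem_tr] at hC
    exact ⟨hC.1.2.1, hC.1.2.2, hC.2⟩
  have hLm : ∀ R, R ∈ loc φ c (c i) → R ⊆ des φ c (c i) ∧ c i ∈ R ∧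
      ∀ x ∈ R, x ≠ c i → φ x ∈ R := by
    intro R hR
    unfold loc at hR
    rw [mem_tr] at hR
    exact hR
  have hAm : ∀ x, x ∈ A ↔ ∃ t : ℕ, t < d ∧ c (i - (t : ZMod g)) = x := by
    intro x
    rw [hA, mem_image]
    constructor
    · rintro ⟨t, ht, rfl⟩
      exact ⟨t, by simpa using ht, rfl⟩
    · rintro ⟨t, ht, rfl⟩
      exact ⟨t, by simpa using ht, rfl⟩
  have hiA : c i ∈ A := (hAm _).mpr ⟨0, by omega, by simp⟩
  have hdis : ∀ C ∈ S, ∀ x ∈ C, x ∉ A ∧ x ∉ des φ c (c i) := by
    intro C hC x hx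
    obtain ⟨h0, hcl, hi⟩ := hSm C hC
    constructor
    · intro hxA
      obtain ⟨t, ht, rfl⟩ := (hAm _).mp hxA
      exact x1_notin hc i d hd hcl hi t ht hx
    · intro hxd
      exact hi (top_mem (c (i - (d : ZMod g))) hcl ⟨_, rfl⟩ hx hxd)
  have hAdes : ∀ x ∈ A, x ∈ des φ c (c i) → x = c i := by
    intro x hxA hxd
    by_contra hne
    obtain ⟨t, ht, rfl⟩ := (hAm _).mp hxA
    exact (des_step hxd hne).1 _ rfl
  have hdesc : ∀ l : ZMod g, c l ∈ des φ c (c i) → l = i := by
    intro l hl
    by_contra hne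
    exact (des_step hl (fun he => hne (hc.inj he))).1 l rfl
  have hinj : Set.InjOn F (↑(S ×ˢ loc φ c (c i)) : Set (Finset V × Finset V)) := by
    rintro ⟨C, R⟩ hp ⟨C', R'⟩ hp' he
    have hp1 : C ∈ S ∧ R ∈ loc φ c (c i) := by simpa using hp
    have hp1' : C' ∈ S ∧ R' ∈ loc φ c (c i) := by simpa using hp'
    have hgen : ∀ D Q : Finset V, D ∈ S → Q ∈ loc φ c (c i) →
        Q = F (D, Q) ∩ des φ c (c i) ∧ D = F (D, Q) \ (A ∪ des φ c (c i)) := by
      intro D Q hD hQ
      obtain ⟨hQ1, hQ2, hQ3⟩ := hLm Q hQ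
      constructor
      · ext x
        rw [mem_inter]
        constructor
        · intro hx
          exact ⟨by simp [hF, hx], hQ1 hx⟩
        · rintro ⟨hx, hxd⟩
          simp only [hF, mem_union] at hx
          rcases hx with (hx | hx) | hx
          · exact absurd hxd (hdis D hD x hx).2
          · rw [hAdes x hx hxd]; exact hQ2
          · exact hx
      · ext x
        rw [mem_sdiff]
        constructor
        · intro hx
          refine ⟨by simp [hF, hx], ?_⟩
          intro h0
          rcases mem_union.mp h0 with h | h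
          · exact (hdis D hD x hx).1 h
          · exact (hdis D hD x hx).2 h
        · rintro ⟨hx, hn⟩
          simp only [hF, mem_union] at hx
          rcases hx with (hx | hx) | hx
          · exact hx
          · exact absurd (mem_union.mpr (Or.inl hx)) hn
          · exact absurd (mem_union.mpr (Or.inr (hQ1 hx))) hn
    obtain ⟨g1, g2⟩ := hgen C R hp1.1 hp1.2
    obtain ⟨g1', g2'⟩ := hgen C' R' hp1'.1 hp1'.2
    have e1 : R = R' := by rw [g1, g1', he]
    have e2 : C = C' := by rw [g2, g2', he]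
    rw [e1, e2]
  have hkk : ∀ p ∈ S ×ˢ loc φ c (c i), kk c (F p) = kk c p.1 + d := by
    rintro ⟨C, R⟩ hp
    obtain ⟨hC, hR⟩ := Finset.mem_product.mp hp
    obtain ⟨hQ1, hQ2, hQ3⟩ := hLm R hR
    have hset : (univ.filter (fun l : ZMod g => c l ∈ F (C, R))) =
        (univ.filter (fun l : ZMod g => c l ∈ C)) ∪
          (Finset.range d).image (fun t : ℕ => i - (t : ZMod g)) := by
      ext l
      simp only [mem_filter, mem_univ, true_and, mem_union, hF, mem_image, mem_range]
      constructor
      · rintro ((h | h) | h)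
        · exact Or.inl h
        · obtain ⟨t, ht, he⟩ := (hAm _).mp h
          exact Or.inr ⟨t, ht, hc.inj he⟩
        · have := hdesc l (hQ1 h)
          subst this
          exact Or.inr ⟨0, by omega, by simp⟩
      · rintro (h | ⟨t, ht, he⟩)
        · exact Or.inl (Or.inl h)
        · exact Or.inl (Or.inr ((hAm _).mpr ⟨t, ht, by rw [he]⟩))
    unfold kk
    have hset' : (univ.filter (fun l : ZMod g => c l ∈ F (C, R))).card =
        (univ.filter (fun l : ZMod g => c l ∈ C)).card + d := by
      rw [hset, Finset.card_union_of_disjoint, Finset.card_image_of_injOn (x1_injOn i d hd),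
        Finset.card_range]
      rw [Finset.disjoint_left]
      intro l hl hl'
      obtain ⟨t, ht, he⟩ := mem_image.mp hl'
      have h5 : c l ∈ C := by simpa using hl
      exact (hdis C hC _ h5).1 ((hAm _).mpr ⟨t, by simpa using ht, by rw [← he]⟩)
    convert hset' using 2
  have hmem : ∀ p ∈ S ×ˢ loc φ c (c i),
      F p ∈ (tr φ univ (c i)).filter (fun C => d < kk c C) := by
    intro p hp
    have hk := hkk p hp
    obtain ⟨C, R⟩ := p
    obtain ⟨hC, hR⟩ := Finset.mem_product.mp hp
    obtain ⟨hQ1, hQ2, hQ3⟩ := hLm R hR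
    obtain ⟨h0, hcl, hi⟩ := hSm C hC
    rw [mem_filter, mem_tr]
    refine ⟨⟨subset_univ _, ?_, ?_⟩, ?_⟩
    · simp only [hF, mem_union]
      exact Or.inr hQ2
    · intro x hx hne
      simp only [hF, mem_union] at hx ⊢
      rcases hx with (hx | hx) | hx
      · by_cases he : x = c (i - (d : ZMod g))
        · refine Or.inl (Or.inr ((hAm _).mpr ⟨d - 1, by omega, ?_⟩))
          rw [he, hc.step]
          congr 1
          have h6 : ((d - 1 : ℕ) : ZMod g) = (d : ZMod g) - 1 := by
            rw [Nat.cast_sub h1]; simp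
          rw [h6]
          ring
        · exact Or.inl (Or.inl (hcl x hx he))
      · obtain ⟨t, ht, he⟩ := (hAm _).mp hx
        have ht0 : 1 ≤ t := by
          by_contra h7
          have h8 : t = 0 := by omega
          apply hne
          rw [← he, h8]
          simp
        refine Or.inl (Or.inr ((hAm _).mpr ⟨t - 1, by omega, ?_⟩))
        rw [← he, hc.step]
        congr 1
        have h6 : ((t - 1 : ℕ) : ZMod g) = (t : ZMod g) - 1 := by
          rw [Nat.cast_sub ht0]; simp
        rw [h6]
        ring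
      · exact Or.inr (hQ3 x hx hne)
    · rw [hk]
      have : 0 < kk c C := by
        unfold kk
        rw [Finset.card_pos]
        exact ⟨i - (d : ZMod g), by simpa using h0⟩
      show d < kk c C + d
      omega
  have hL : (wN φ c (c i) : ℚ) * ∑ C ∈ S, f (kk c C) =
      ∑ p ∈ S ×ˢ loc φ c (c i), f (kk c (F p) - d) := by
    have h9 : ∑ p ∈ S ×ˢ loc φ c (c i), f (kk c (F p) - d) =
        ∑ p ∈ S ×ˢ loc φ c (c i), f (kk c p.1) := by
      apply Finset.sum_congr rfl
      intro p hp
      rw [hkk p hp]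
      congr 1
      omega
    rw [h9, Finset.sum_product, Finset.mul_sum]
    apply Finset.sum_congr rfl
    intro C _
    show (wN φ c (c i) : ℚ) * f (kk c C) = ∑ y ∈ loc φ c (c i), f (kk c C)
    rw [Finset.sum_const, nsmul_eq_mul]
    rfl
  rw [hL]
  calc ∑ p ∈ S ×ˢ loc φ c (c i), f (kk c (F p) - d)
      = ∑ C ∈ (S ×ˢ loc φ c (c i)).image F, f (kk c C - d) := by
        rw [Finset.sum_image]
        intro a ha b hb hab
        exact hinj ha hb hab
    _ ≤ ∑ C ∈ (tr φ univ (c i)).filter (fun C => d < kk c C), f (kk c C - d) := by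
        apply Finset.sum_le_sum_of_subset_of_nonneg
        · intro C hC
          obtain ⟨p, hp, rfl⟩ := mem_image.mp hC
          exact hmem p hp
        · intro C _ _
          exact hf _

end Pool.Agent.LibUS88
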