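import Mathlib
import Pool.Agent.LibUS88.Defs2
import Pool.Agent.LibUS88.Num
import Pool.Agent.LibUS88.Frame
import Pool.Agent.LibUS88.S1
import Pool.Agent.LibUS88.J1
import Pool.Agent.LibUS88.P1
import Pool.Agent.LibUS88.X1
import Pool.Agent.LibUS88.O1
import Pool.Agent.LibUS88.G2

set_option autoImplicit false
set_option linter.unusedSectionVars false

namespace Pool.Agent.LibUS88

open Finset Pool.Agent.LibMST Pool.Agent.LibMSB

variable {V : Type*} [Fintype V] [DecidableEq V] {φ : V → V} {g : ℕ} {c : ZMod g → V}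

/-- The trees that meet the cycle, with their tops. -/
noncomputable def MS (φ : V → V) {g : ℕ} [NeZero g] (c : ZMod g → V) :
    Finset (Σ _ : ZMod g, Finset V) :=
  (univ : Finset (ZMod g)).sigma (fun j => tr φ univ (c j))

theorem sum_MS [NeZero g] (h : (Σ _ : ZMod g, Finset V) → ℚ) :
    ∑ T ∈ MS φ c, h T = ∑ j : ZMod g, ∑ C ∈ tr φ univ (c j), h ⟨j, C⟩ := by
  unfold MS
  rw [Finset.sum_sigma]

theorem sum_MS_filter [NeZero g] (P : (Σ _ : ZMod g, Finset V) → Prop) [DecidablePred P]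
    (h : (Σ _ : ZMod g, Finset V) → ℚ) :
    ∑ T ∈ (MS φ c).filter P, h T =
      ∑ j : ZMod g, ∑ C ∈ (tr φ univ (c j)).filter (fun C => P ⟨j, C⟩), h ⟨j, C⟩ := by
  rw [Finset.sum_filter, sum_MS]
  apply Finset.sum_congr rfl
  intro j _
  rw [Finset.sum_filter]

theorem kk_le [NeZero g] (C : Finset V) : kk c C ≤ g := by
  classical
  unfold kk
  have h := Finset.card_filter_le (univ : Finset (ZMod g)) (fun i : ZMod g => c i ∈ C)
  rwa [Finset.card_univ, ZMod.card] at h

theorem kk_pos [NeZero g] {j : ZMod g} {C : Finset V} (h : c j ∈ C) : 1 ≤ kk c C := by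
  classical
  unfold kk
  exact card_pos.mpr ⟨j, mem_filter.mpr ⟨mem_univ j, h⟩⟩

theorem sum_shift [NeZero g] (i : ZMod g) (F : ZMod g → ℚ) :
    ∑ j : ZMod g, F j = F i + ∑ d ∈ Finset.Ico 1 g, F (i - (d : ZMod g)) := by
  have hg : 0 < g := Nat.pos_of_ne_zero (NeZero.ne g)
  have h1 : ∑ d ∈ Finset.range g, F (i - (d : ZMod g)) = ∑ j : ZMod g, F j := by
    apply Finset.sum_nbij' (fun d : ℕ => i - (d : ZMod g)) (fun j : ZMod g => (i - j).val)
    · intro d _
      exact mem_univ _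
    · intro j _
      exact Finset.mem_range.mpr (ZMod.val_lt _)
    · intro d hd
      rw [Finset.mem_range] at hd
      rw [sub_sub_cancel, ZMod.val_natCast, Nat.mod_eq_of_lt hd]
    · intro j _
      rw [ZMod.natCast_val, ZMod.cast_id', id, sub_sub_cancel]
    · intro d _
      rfl
  rw [← h1, Finset.range_eq_Ico, Finset.sum_eq_sum_Ico_succ_bot hg]
  simp

theorem ext_sum [NeZero g] (hc : Cyc φ c) (i : ZMod g) (f : ℕ → ℚ) (hf : ∀ n, 0 ≤ f n) :
    (wN φ c (c i) : ℚ) * ∑ j : ZMod g, ∑ C ∈ (tr φ univ (c j)).filter (fun C => c i ∉ C),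
        f (kk c C) ≤
      ∑ C ∈ tr φ univ (c i), ∑ d ∈ Finset.Ico 1 (kk c C), f (kk c C - d) := by
  classical
  rw [sum_shift i]
  have h0 : ∑ C ∈ (tr φ univ (c i)).filter (fun C => c i ∉ C), f (kk c C) = 0 := by
    apply Finset.sum_eq_zero
    intro C hC
    rw [mem_filter, mem_tr] at hC
    exact absurd hC.1.2.1 hC.2
  rw [h0, zero_add, Finset.mul_sum]
  have h1 : ∑ d ∈ Finset.Ico 1 g, (wN φ c (c i) : ℚ) *
      ∑ C ∈ (tr φ univ (c (i - (d : ZMod g)))).filter (fun C => c i ∉ C), f (kk c C) ≤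
      ∑ d ∈ Finset.Ico 1 g, ∑ C ∈ (tr φ univ (c i)).filter (fun C => d < kk c C),
        f (kk c C - d) := by
    apply Finset.sum_le_sum
    intro d hd
    rw [Finset.mem_Ico] at hd
    exact ext hc i d hd.1 hd.2 f hf
  refine h1.trans (le_of_eq ?_)
  simp_rw [Finset.sum_filter]
  rw [Finset.sum_comm]
  apply Finset.sum_congr rfl
  intro C _
  rw [← Finset.sum_filter]
  apply Finset.sum_congr _ (fun _ _ => rfl)
  ext d
  rw [mem_filter, Finset.mem_Ico, Finset.mem_Ico]
  have := kk_le (c := c) C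
  omega

theorem kk_single [NeZero g] (hc : Cyc φ c) (j : ZMod g) : kk c {c j} = 1 := by
  classical
  unfold kk
  rw [card_eq_one]
  refine ⟨j, ?_⟩
  ext l
  rw [mem_filter, mem_singleton, mem_singleton]
  constructor
  · intro h
    exact hc.inj h.2
  · intro h
    rw [h]
    exact ⟨mem_univ _, rfl⟩

theorem kk_pair [NeZero g] (hc : Cyc φ c) {i j : ZMod g} (hij : i ≠ j) :
    kk c {c i, c j} = 2 := by
  classical
  unfold kk
  rw [← card_pair hij]
  congr 1
  ext l
  rw [mem_filter, mem_insert, mem_singleton, mem_insert, mem_singleton]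
  constructor
  · rintro ⟨_, h | h⟩
    · exact Or.inl (hc.inj h)
    · exact Or.inr (hc.inj h)
  · rintro (h | h)
    · rw [h]; exact ⟨mem_univ _, Or.inl rfl⟩
    · rw [h]; exact ⟨mem_univ _, Or.inr rfl⟩

theorem core_MS [NeZero g] (hc : Cyc φ c) (hg : 3 ≤ g) :
    (0 < ((MS φ c).card : ℚ) * (∑ T ∈ MS φ c, (T.2.card : ℚ) * ((kk c T.2 : ℚ) - 1)) -
      (∑ T ∈ MS φ c, (T.2.card : ℚ)) * (∑ T ∈ MS φ c, ((kk c T.2 : ℚ) - 1))) ∧
    (∀ i, (aN φ c (c i) : ℚ) * ((MS φ c).card : ℚ) ≤
      (wN φ c (c i) : ℚ) * ∑ T ∈ MS φ c, (T.2.card : ℚ)) ∧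
    0 ≤ ∑ T ∈ MS φ c, ((kk c T.2 : ℚ) - 1) := by
  classical
  apply core (M := MS φ c) (top := fun T => T.1) (kap := fun T => kk c T.2)
    (ordr := fun T => (T.2.card : ℚ)) (rh := fun i T => (rho φ c i T.2 : ℚ))
    (mem := fun i T => c i ∈ T.2) (w := fun i => (wN φ c (c i) : ℚ))
    (a := fun i => (aN φ c (c i) : ℚ))
  · intro T _
    have := card_dec hc T.2
    exact_mod_cast this
  · intro i T
    positivity
  · intro T hT
    unfold MS at hT
    rw [mem_sigma, mem_tr] at hT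
    exact kk_pos hT.2.2.1
  · intro i
    have := wN_pos φ c (c i)
    exact_mod_cast this
  · intro i
    have := wN_le_aN (φ := φ) (c := c) (c i)
    exact_mod_cast this
  · intro i
    have := sizes (φ := φ) (c := c) (c i)
    exact_mod_cast this
  · intro i f
    rw [sum_MS, sum_MS_filter, Finset.mul_sum, Finset.mul_sum]
    apply Finset.sum_congr rfl
    intro j _
    exact indep hc i j f
  · intro i f hf
    rw [sum_MS_filter, sum_MS_filter]
    refine (ext_sum hc i f hf).trans (le_of_eq ?_)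
    rw [Finset.sum_eq_single i]
    · simp
    · intro j _ hj
      apply Finset.sum_eq_zero
      intro C hC
      rw [mem_filter] at hC
      exact absurd hC.2 hj
    · intro h
      exact absurd (mem_univ i) h
  · have h01 : (0 : ZMod g) ≠ 1 := by
      intro h
      have h2 : ((1 : ℕ) : ZMod g) = 0 := by rw [Nat.cast_one]; exact h.symm
      rw [ZMod.natCast_eq_zero_iff] at h2
      have := Nat.le_of_dvd one_pos h2
      omega
    refine ⟨⟨0, {c 0}⟩, ?_, ⟨1, {c 0, c 1}⟩, ?_, ?_⟩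
    · unfold MS
      rw [mem_sigma, mem_tr]
      refine ⟨mem_univ _, subset_univ _, mem_singleton_self _, ?_⟩
      intro x hx hne
      exact absurd (mem_singleton.mp hx) hne
    · unfold MS
      rw [mem_sigma, mem_tr]
      refine ⟨mem_univ _, subset_univ _, by simp, ?_⟩
      intro x hx hne
      simp only [mem_insert, mem_singleton] at hx hne ⊢
      rcases hx with hx | hx
      · right
        rw [hx, hc.step, zero_add]
      · exact absurd hx hne
    · simp only
      rw [kk_single hc, kk_pair hc h01]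
      norm_num

theorem sum_TP [NeZero g] (hc : Cyc φ c) (hg : 3 ≤ g) (F : Finset V × Finset (Sym2 V) → ℚ)
    [DecidablePred (Off c)] :
    ∑ T ∈ TP (edg φ), F T = ∑ T ∈ MS φ c, F (mkT φ (c T.1) T.2) +
      ∑ y ∈ univ.filter (fun y => Off c y), ∑ C ∈ loc φ c y, F (mkT φ y C) := by
  classical
  have h1 : ∑ p ∈ (univ : Finset V).sigma (fun y => trs φ c y), F (mkT φ p.1 p.2) =
      ∑ T ∈ TP (edg φ), F T := by
    apply Finset.sum_bij (fun p _ => mkT φ p.1 p.2)
    · intro p hp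
      rw [mem_sigma] at hp
      exact mkT_mem hc hp.2
    · intro p hp q hq h
      rw [mem_sigma] at hp hq
      obtain ⟨h1, h2⟩ := mkT_inj hc hg hp.2 hq.2 h
      obtain ⟨p1, p2⟩ := p
      obtain ⟨q1, q2⟩ := q
      simp only at h1 h2
      subst h1
      subst h2
      rfl
    · intro T hT
      obtain ⟨y, C, hC, hm⟩ := mkT_surj hc hg (edge_inj hc hg) hT
      exact ⟨⟨y, C⟩, mem_sigma.mpr ⟨mem_univ y, hC⟩, hm⟩
    · intro p _
      rfl
  rw [← h1, Finset.sum_sigma, sum_MS, ← Finset.sum_filter_add_sum_filter_not univ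
    (fun y => Off c y), add_comm]
  congr 1
  · have h2 : (univ : Finset V).filter (fun y => ¬ Off c y) =
        (univ : Finset (ZMod g)).image c := by
      ext y
      simp only [mem_filter, mem_univ, true_and, mem_image]
      unfold Off
      push Not
      constructor
      · rintro ⟨i, hi⟩
        exact ⟨i, hi.symm⟩
      · rintro ⟨i, hi⟩
        exact ⟨i, hi.symm⟩
    rw [h2, Finset.sum_image (fun a _ b _ hab => hc.inj hab)]
    apply Finset.sum_congr rfl
    intro j _
    have h3 : ¬ Off c (c j) := fun h => h j rfl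
    unfold trs
    rw [if_neg h3]
  · apply Finset.sum_congr rfl
    intro y hy
    have h3 := (mem_filter.mp hy).2
    unfold trs loc
    rw [if_pos h3]

theorem inc_MS [NeZero g] (hc : Cyc φ c) (hg : 3 ≤ g) {j : ZMod g} {C : Finset V}
    (hj : c j ∈ C) :
    ∑ i : ZMod g, (if s(c i, φ (c i)) ∈ (mkT φ (c j) C).2 then (1 : ℚ) else 0) =
      (kk c C : ℚ) - 1 := by
  classical
  rw [← Finset.sum_filter, Finset.sum_const, nsmul_eq_mul, mul_one]
  have h1 : (univ.filter (fun i : ZMod g => c i ∈ C)) =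
      insert j (univ.filter (fun i : ZMod g => s(c i, φ (c i)) ∈ (mkT φ (c j) C).2)) := by
    ext i
    rw [mem_insert, mem_filter, mem_filter, mem_mkT hc hg]
    constructor
    · rintro ⟨_, h⟩
      by_cases hij : i = j
      · exact Or.inl hij
      · exact Or.inr ⟨mem_univ _, fun h' => hij (hc.inj h'), h⟩
    · rintro (h | h)
      · rw [h]
        exact ⟨mem_univ _, hj⟩
      · exact ⟨mem_univ _, h.2.2⟩
  have h2 : j ∉ univ.filter (fun i : ZMod g => s(c i, φ (c i)) ∈ (mkT φ (c j) C).2) := by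
    rw [mem_filter, mem_mkT hc hg]
    intro h
    exact h.2.1 rfl
  have h3 : kk c C = (univ.filter (fun i : ZMod g =>
      s(c i, φ (c i)) ∈ (mkT φ (c j) C).2)).card + 1 := by
    rw [← card_insert_of_notMem h2, ← h1]
    unfold kk
    congr
  rw [h3]
  push_cast
  ring

theorem inc_off [NeZero g] (hc : Cyc φ c) (hg : 3 ≤ g) {y : V} {C : Finset V}
    (hC : C ∈ loc φ c y) :
    ∑ i : ZMod g, (if s(c i, φ (c i)) ∈ (mkT φ y C).2 then (1 : ℚ) else 0) = 0 := by
  classical
  apply Finset.sum_eq_zero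
  intro i _
  rw [if_neg]
  rw [mem_mkT hc hg]
  rintro ⟨h1, h2⟩
  exact (des_step (loc_des hC h2) h1).1 i rfl

theorem cov_cycle [NeZero g] (hc : Cyc φ c) (hg : 3 ≤ g) :
    0 < ∑ i : ZMod g, cov (edg φ) s(c i, φ (c i)) := by
  classical
  obtain ⟨h5, h6, hK⟩ := core_MS hc hg
  set n : ℚ := ((MS φ c).card : ℚ) with hn
  set L : ℚ := ∑ T ∈ MS φ c, (T.2.card : ℚ) * ((kk c T.2 : ℚ) - 1) with hL
  set A : ℚ := ∑ T ∈ MS φ c, (T.2.card : ℚ) with hA
  set K : ℚ := ∑ T ∈ MS φ c, ((kk c T.2 : ℚ) - 1) with hKd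
  set O : Finset V := univ.filter (fun y => Off c y) with hO
  set nO : ℚ := ∑ y ∈ O, (wN φ c y : ℚ) with hnO
  set AO : ℚ := ∑ y ∈ O, (aN φ c y : ℚ) with hAO
  have hN : cntN (edg φ) = n + nO := by
    have h1 : cntN (edg φ) = ∑ T ∈ TP (edg φ), (1 : ℚ) := by
      unfold cntN
      simp
    rw [h1, sum_TP hc hg, hn, hnO]
    congr 1
    · simp
    · apply Finset.sum_congr rfl
      intro y _
      unfold wN
      simp
  have hcA : cntA (edg φ) = A + AO := by
    unfold cntA
    rw [sum_TP hc hg, hA, hAO]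
    congr 1
    apply Finset.sum_congr rfl
    intro y _
    unfold aN ord mkT
    push_cast
    rfl
  have hNe : ∑ i : ZMod g, cntNe (edg φ) s(c i, φ (c i)) = K := by
    unfold cntNe
    rw [Finset.sum_comm, sum_TP hc hg, hKd]
    have h1 : ∑ T ∈ MS φ c, ∑ i : ZMod g,
        (if s(c i, φ (c i)) ∈ (mkT φ (c T.1) T.2).2 then (1 : ℚ) else 0) =
        ∑ T ∈ MS φ c, ((kk c T.2 : ℚ) - 1) := by
      apply Finset.sum_congr rfl
      intro T hT
      unfold MS at hT
      rw [mem_sigma, mem_tr] at hT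
      exact inc_MS hc hg hT.2.2.1
    rw [h1]
    have h2 : ∑ y ∈ O, ∑ C ∈ loc φ c y, ∑ i : ZMod g,
        (if s(c i, φ (c i)) ∈ (mkT φ y C).2 then (1 : ℚ) else 0) = 0 := by
      apply Finset.sum_eq_zero
      intro y hy
      apply Finset.sum_eq_zero
      intro C hC
      exact inc_off hc hg hC
    rw [h2, add_zero]
  have hAe : ∑ i : ZMod g, cntAe (edg φ) s(c i, φ (c i)) = L := by
    unfold cntAe
    rw [Finset.sum_comm]
    have h0 : ∀ T ∈ TP (edg φ), ∑ i : ZMod g,
        (if s(c i, φ (c i)) ∈ T.2 then ord T else 0) =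
        ord T * ∑ i : ZMod g, (if s(c i, φ (c i)) ∈ T.2 then (1 : ℚ) else 0) := by
      intro T _
      rw [Finset.mul_sum]
      apply Finset.sum_congr rfl
      intro i _
      split_ifs <;> simp
    rw [Finset.sum_congr rfl h0, sum_TP hc hg, hL]
    have h1 : ∑ T ∈ MS φ c, ord (mkT φ (c T.1) T.2) * ∑ i : ZMod g,
        (if s(c i, φ (c i)) ∈ (mkT φ (c T.1) T.2).2 then (1 : ℚ) else 0) =
        ∑ T ∈ MS φ c, (T.2.card : ℚ) * ((kk c T.2 : ℚ) - 1) := by
      apply Finset.sum_congr rfl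
      intro T hT
      unfold MS at hT
      rw [mem_sigma, mem_tr] at hT
      rw [inc_MS hc hg hT.2.2.1]
      rfl
    rw [h1]
    have h2 : ∑ y ∈ O, ∑ C ∈ loc φ c y, ord (mkT φ y C) * ∑ i : ZMod g,
        (if s(c i, φ (c i)) ∈ (mkT φ y C).2 then (1 : ℚ) else 0) = 0 := by
      apply Finset.sum_eq_zero
      intro y hy
      apply Finset.sum_eq_zero
      intro C hC
      rw [inc_off hc hg hC, mul_zero]
    rw [h2, add_zero]
  have hsum : ∑ i : ZMod g, cov (edg φ) s(c i, φ (c i)) = (n + nO) * L - (A + AO) * K := by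
    unfold cov
    rw [Finset.sum_sub_distrib, ← Finset.mul_sum, ← Finset.mul_sum, hAe, hNe, hN, hcA]
  have hAOle : AO * n ≤ nO * A := by
    rw [hAO, hnO, Finset.sum_mul, Finset.sum_mul]
    apply Finset.sum_le_sum
    intro y hy
    have hoff := (mem_filter.mp hy).2
    -- `y` lies below some `c i`
    obtain ⟨i, hi⟩ : ∃ i, y ∈ des φ c (c i) := by
      have hr := hc.reach y
      have hr' : ∃ m, ∃ i, φ^[m] y = c i := hr
      obtain ⟨i, hi⟩ := Nat.find_spec hr'
      refine ⟨i, ?_⟩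
      rw [mem_des]
      refine ⟨Nat.find hr', hi, ?_⟩
      intro m hm j hj
      exact Nat.find_min hr' hm ⟨j, hj⟩
    have hj := jam (fun x hx => jam_step hc hx (not_des hc hx) (sizes x)) hi
    have hjq : (aN φ c y : ℚ) * (wN φ c (c i) : ℚ) ≤ (aN φ c (c i) : ℚ) * (wN φ c y : ℚ) := by
      exact_mod_cast hj
    have h6i := h6 i
    have hwi : (0 : ℚ) < (wN φ c (c i) : ℚ) := by
      have := wN_pos φ c (c i)
      exact_mod_cast this
    have hwy : (0 : ℚ) < (wN φ c y : ℚ) := by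
      have := wN_pos φ c y
      exact_mod_cast this
    have hn0 : 0 ≤ n := by rw [hn]; positivity
    have e1 : (wN φ c (c i) : ℚ) * ((aN φ c y : ℚ) * n) ≤
        (wN φ c (c i) : ℚ) * ((wN φ c y : ℚ) * A) := by
      calc (wN φ c (c i) : ℚ) * ((aN φ c y : ℚ) * n)
          = ((aN φ c y : ℚ) * (wN φ c (c i) : ℚ)) * n := by ring
        _ ≤ ((aN φ c (c i) : ℚ) * (wN φ c y : ℚ)) * n := mul_le_mul_of_nonneg_right hjq hn0
        _ = ((aN φ c (c i) : ℚ) * n) * (wN φ c y : ℚ) := by ring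
        _ ≤ ((wN φ c (c i) : ℚ) * A) * (wN φ c y : ℚ) := mul_le_mul_of_nonneg_right h6i hwy.le
        _ = (wN φ c (c i) : ℚ) * ((wN φ c y : ℚ) * A) := by ring
    exact le_of_mul_le_mul_left e1 hwi
  have hnO0 : 0 ≤ nO := Finset.sum_nonneg (fun y _ => by positivity)
  have hnpos : 0 < n := by
    rcases (Nat.cast_nonneg (α := ℚ) (MS φ c).card).lt_or_eq with h | h
    · exact h
    · exfalso
      have h0 : (MS φ c).card = 0 := by exact_mod_cast h.symm
      rw [card_eq_zero] at h0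
      rw [hn, hA, h0] at h5
      simp at h5
  have hfin : 0 < n * ((n + nO) * L - (A + AO) * K) := by
    have e1 : n * ((n + nO) * L - (A + AO) * K) =
        (n + nO) * (n * L - A * K) + (nO * A - AO * n) * K := by ring
    rw [e1]
    have e2 : 0 < (n + nO) * (n * L - A * K) := mul_pos (by linarith) h5
    have e3 : 0 ≤ (nO * A - AO * n) * K := mul_nonneg (by linarith) hK
    linarith
  rw [hsum]
  exact (mul_pos_iff_of_pos_left hnpos).mp hfin

end Pool.Agent.LibUS88
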