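import Mathlib
import Pool.Agent.LibUS88.Defs2

set_option autoImplicit false
set_option linter.unusedSectionVars false

namespace Pool.Agent.LibUS88

open Finset Pool.Agent.LibMST Pool.Agent.LibMSB

variable {V : Type*} [Fintype V] [DecidableEq V] {φ : V → V} {g : ℕ} {c : ZMod g → V}

private theorem C1_iter (hc : Cyc φ c) (m : ℕ) (k : ZMod g) : φ^[m] (c k) = c (k + (m : ZMod g)) := by
  induction m with
  | zero => simp
  | succ m ih =>
    rw [Function.iterate_succ_apply', ih, hc.step]
    congr 1
    push_cast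
    ring

private theorem C1_reach (hinj : ∀ x x' : V, s(x, φ x) = s(x', φ x') → x = x')
    (G : SimpleGraph V) (hG : ∀ e, e ∈ G.edgeSet ↔ ∃ x, e = s(x, φ x)) (i : ZMod g) :
    ∀ (N : ℕ) (x : V), φ^[N] x = c i →
      (G.deleteEdges {s(c i, φ (c i))}).Reachable x (c i) := by
  intro N
  induction N with
  | zero =>
    intro x hx
    have : x = c i := hx
    rw [this]
  | succ N ih =>
    intro x hx
    by_cases hxi : x = c i
    · rw [hxi]
    · have hadj : (G.deleteEdges {s(c i, φ (c i))}).Adj x (φ x) := by
        rw [SimpleGraph.deleteEdges_adj]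
        refine ⟨(SimpleGraph.mem_edgeSet G).mp ((hG _).mpr ⟨x, rfl⟩), ?_⟩
        intro hmem
        exact hxi (hinj x (c i) (Set.mem_singleton_iff.mp hmem))
      exact hadj.reachable.trans (ih (φ x) (by rw [← Function.iterate_succ_apply]; exact hx))

/-- The graph of `φ` without a cycle edge is connected.
Plan. Every vertex reaches `c i` by iterating `φ` (`hc.reach`, `hc.step`); induction on the least number
of steps: for `x ≠ c i` the edge `s(x, φ x)` is not the deleted one (hinj), so `x` is adjacent to `φ x`
(`x ≠ φ x`: an edge of a simple graph, from hG). -/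
theorem conn_del [NeZero g] (hc : Cyc φ c) (hg : 3 ≤ g)
    (hinj : ∀ x x' : V, s(x, φ x) = s(x', φ x') → x = x') (G : SimpleGraph V)
    (hG : ∀ e, e ∈ G.edgeSet ↔ ∃ x, e = s(x, φ x)) (i : ZMod g) :
    (G.deleteEdges {s(c i, φ (c i))}).Connected := by
  rw [SimpleGraph.connected_iff_exists_forall_reachable]
  refine ⟨c i, fun x => ?_⟩
  obtain ⟨n, k, hk⟩ := hc.reach x
  refine (C1_reach hinj G hG i ((i - k).val + n) x ?_).symm
  rw [Function.iterate_add_apply, hk, C1_iter hc, ZMod.natCast_zmod_val]
  congr 1
  ring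

end Pool.Agent.LibUS88
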