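import Mathlib
import Pool.Agent.LibUS88.Defs2

set_option autoImplicit false
set_option linter.unusedSectionVars false

namespace Pool.Agent.LibUS88

open Finset Pool.Agent.LibMST Pool.Agent.LibMSB

variable {V : Type*} [Fintype V] [DecidableEq V]

private theorem exists_down {T : SimpleGraph V} (hT : T.Connected) {x v : V} (hx : x ≠ v) :
    ∃ y, T.Adj x y ∧ T.dist y v + 1 = T.dist x v := by
  obtain ⟨p, hp⟩ := hT.exists_walk_length_eq_dist x v
  cases p with
  | nil => exact absurd rfl hx
  | @cons _ y _ h p' =>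
    refine ⟨y, h, ?_⟩
    rw [SimpleGraph.Walk.length_cons] at hp
    have h1 : T.dist y v ≤ p'.length := SimpleGraph.dist_le p'
    have h2 : T.dist x v ≤ T.dist x y + T.dist y v := hT.dist_triangle
    have h3 : T.dist x y = 1 := SimpleGraph.dist_eq_one_iff_adj.mpr h
    omega

/-- The extra edge. -/
private theorem exists_extra (G T : SimpleGraph V) (hle : T ≤ G) (hT : T.IsTree)
    (hcard : Nat.card G.edgeSet = Fintype.card V) :
    ∃ u v, G.Adj u v ∧ ¬ T.Adj u v ∧ ∀ e, e ∈ G.edgeSet ↔ e = s(v, u) ∨ e ∈ T.edgeSet := by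
  classical
  have hTc : T.edgeFinset.card + 1 = Fintype.card V := hT.card_edgeFinset
  have hGc : G.edgeFinset.card = Fintype.card V := by
    rw [← hcard, Nat.card_eq_card_toFinset]
    rfl
  have hsub : T.edgeFinset ⊆ G.edgeFinset := SimpleGraph.edgeFinset_mono hle
  have hd : (G.edgeFinset \ T.edgeFinset).card = 1 := by
    rw [card_sdiff_of_subset hsub]
    omega
  obtain ⟨e, he⟩ := card_eq_one.mp hd
  have hmem : e ∈ G.edgeFinset \ T.edgeFinset := by rw [he]; exact mem_singleton_self e
  rw [mem_sdiff, SimpleGraph.mem_edgeFinset, SimpleGraph.mem_edgeFinset] at hmem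
  induction e with
  | _ v u =>
  refine ⟨u, v, ?_, ?_, ?_⟩
  · exact (SimpleGraph.mem_edgeSet G).mp hmem.1 |>.symm
  · intro h
    exact hmem.2 ((SimpleGraph.mem_edgeSet T).mpr h.symm)
  · intro f
    constructor
    · intro hf
      by_cases hfT : f ∈ T.edgeSet
      · exact Or.inr hfT
      · left
        have : f ∈ G.edgeFinset \ T.edgeFinset := by
          rw [mem_sdiff, SimpleGraph.mem_edgeFinset, SimpleGraph.mem_edgeFinset]
          exact ⟨hf, hfT⟩
        rw [he] at this
        exact mem_singleton.mp this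
    · rintro (rfl | hf)
      · exact hmem.1
      · exact SimpleGraph.edgeSet_mono hle hf

/-- A connected graph with as many edges as vertices is the graph of a
function with one cycle of length at least three.
Plan. Take a spanning tree `τ ≤ G` (SimpleGraph.Connected.exists_isTree_le); `τ` has `|V| - 1` edges
(IsTree.card_edgeFinset), so `G` has exactly one more edge `s(u, v)`. For `x ≠ v` let `φ x` be a
`τ`-neighbour with `τ.dist (φ x) v + 1 = τ.dist x v`, and `φ v = u`. The edges `s(x, φ x)`, `x ≠ v`, are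
distinct (distances), so they are all edges of `τ`. With `d = τ.dist u v` (at least 2), `g = d + 1` and
`c i = φ^[i.val] u` : `φ^[d] u = v`, distances `d, d-1, .., 0` show that `c` is injective; every `x`
reaches `v = c d`. -/
theorem exists_cyc (G : SimpleGraph V) (hG : G.Connected)
    (hcard : Nat.card G.edgeSet = Fintype.card V) :
    ∃ (φ : V → V) (g : ℕ) (c : ZMod g → V), 3 ≤ g ∧ Cyc φ c ∧
      ∀ e, e ∈ G.edgeSet ↔ ∃ x, e = s(x, φ x) := by
  classical
  obtain ⟨T, hle, hT⟩ := hG.exists_isTree_le
  obtain ⟨u, v, huv, hnuv, hedge⟩ := exists_extra G T hle hT hcard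
  have hTc : T.Connected := hT.connected
  choose! ψ hψ1 hψ2 using fun (x : V) (hx : x ≠ v) => exists_down hTc hx
  let φ : V → V := fun x => if x = v then u else ψ x
  have hφv : φ v = u := by simp [φ]
  have hφ : ∀ x, x ≠ v → φ x = ψ x := fun x hx => by simp [φ, hx]
  have hdist : ∀ x, x ≠ v → T.dist (φ x) v + 1 = T.dist x v := by
    intro x hx
    rw [hφ x hx]
    exact hψ2 x hx
  have hadj : ∀ x, x ≠ v → T.Adj x (φ x) := by
    intro x hx
    rw [hφ x hx]
    exact hψ1 x hx
  -- the edges of `T`
  have hinj : ∀ x ∈ univ.erase v, ∀ y ∈ univ.erase v, s(x, φ x) = s(y, φ y) → x = y := by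
    intro x hx y hy h
    rw [mem_erase] at hx hy
    rw [Sym2.eq_iff] at h
    rcases h with h | h
    · exact h.1
    · exfalso
      have h1 := hdist x hx.1
      have h2 := hdist y hy.1
      rw [h.2] at h1
      rw [← h.1] at h2
      omega
  have hT2 : (univ.erase v).image (fun x => s(x, φ x)) = T.edgeFinset := by
    apply eq_of_subset_of_card_le
    · intro e he
      rw [mem_image] at he
      obtain ⟨x, hx, rfl⟩ := he
      rw [mem_erase] at hx
      rw [SimpleGraph.mem_edgeFinset, SimpleGraph.mem_edgeSet]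
      exact hadj x hx.1
    · rw [card_image_of_injOn (fun x hx y hy h => hinj x hx y hy h), card_erase_of_mem (mem_univ v),
        card_univ]
      have := hT.card_edgeFinset
      omega
  have hT3 : ∀ e, e ∈ T.edgeSet ↔ ∃ x, x ≠ v ∧ e = s(x, φ x) := by
    intro e
    rw [← SimpleGraph.mem_edgeFinset, ← hT2, mem_image]
    constructor
    · rintro ⟨x, hx, rfl⟩
      exact ⟨x, (mem_erase.mp hx).1, rfl⟩
    · rintro ⟨x, hx, rfl⟩
      exact ⟨x, mem_erase.mpr ⟨hx, mem_univ x⟩, rfl⟩
  -- iterates towards `v`
  have hiter : ∀ x, ∀ m, m ≤ T.dist x v → T.dist (φ^[m] x) v = T.dist x v - m := by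
    intro x m
    induction m with
    | zero => intro _; simp
    | succ m ih =>
      intro hm
      have h1 := ih (by omega)
      have hne : φ^[m] x ≠ v := by
        intro h
        rw [h, SimpleGraph.dist_self] at h1
        omega
      have h2 := hdist _ hne
      rw [Function.iterate_succ_apply']
      omega
  have hend : ∀ x, φ^[T.dist x v] x = v := by
    intro x
    have h1 := hiter x (T.dist x v) le_rfl
    rw [Nat.sub_self] at h1
    exact hTc.dist_eq_zero_iff.mp h1
  have hd2 : 2 ≤ T.dist u v := by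
    have h0 : T.dist u v ≠ 0 := by
      intro h
      exact huv.ne (hTc.dist_eq_zero_iff.mp h)
    have h1 : T.dist u v ≠ 1 := by
      intro h
      exact hnuv (SimpleGraph.dist_eq_one_iff_adj.mp h)
    omega
  obtain ⟨d, hd⟩ : ∃ d, d = T.dist u v := ⟨_, rfl⟩
  refine ⟨φ, d + 1, fun i => φ^[i.val] u, by omega, ⟨?_, ?_, ?_⟩, ?_⟩
  · intro i j hij
    have hi := ZMod.val_lt i
    have hj := ZMod.val_lt j
    have h1 := hiter u i.val (by omega)
    have h2 := hiter u j.val (by omega)
    simp only at hij
    rw [hij, h2] at h1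
    exact ZMod.val_injective _ (by omega)
  · intro i
    have hi := ZMod.val_lt i
    have hval : (i + 1).val = (i.val + 1) % (d + 1) := by
      have : i + 1 = ((i.val + 1 : ℕ) : ZMod (d + 1)) := by
        push_cast
        rw [ZMod.natCast_zmod_val]
      rw [this, ZMod.val_natCast]
    rw [hval, ← Function.iterate_succ_apply' φ]
    rcases Nat.lt_or_ge (i.val + 1) (d + 1) with h | h
    · rw [Nat.mod_eq_of_lt h]
    · have he : i.val + 1 = d + 1 := by omega
      rw [Nat.succ_eq_add_one, he, Nat.mod_self, Function.iterate_succ_apply', hd, hend u, hφv]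
      rfl
  · intro x
    refine ⟨T.dist x v, ((d : ℕ) : ZMod (d + 1)), ?_⟩
    rw [ZMod.val_natCast, Nat.mod_eq_of_lt (Nat.lt_succ_self d), hend x, hd, hend u]
  · intro e
    rw [hedge e, hT3 e]
    constructor
    · rintro (rfl | ⟨x, _, rfl⟩)
      · exact ⟨v, by rw [hφv]⟩
      · exact ⟨x, rfl⟩
    · rintro ⟨x, rfl⟩
      by_cases hx : x = v
      · subst hx
        left
        rw [hφv]
      · exact Or.inr ⟨x, hx, rfl⟩

end Pool.Agent.LibUS88
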